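import Pool.Agent.N585.GI.Sets

/-!
# Polynomial equations between the cardinalities are definable with isomorphism quantifiers
-/

set_option autoImplicit false

namespace Pool.Agent.N585.GI

open Finset

/-- All conjunctions in the formula are finite. -/
def Fml.Finitary {σ : ℕ → Type} {k : ℕ} : ∀ {n : ℕ}, Fml σ k n → Prop
  | _, .rel _ _ _ => True
  | _, .eq _ _ => True
  | _, .neg φ => φ.Finitary
  | _, .conj J φ => Finite J ∧ ∀ j, (φ j).Finitary
  | _, .ex _ φ => φ.Finitary
  | _, .sub _ _ _ φ => φ.Finitary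
  | _, .iso _ _ _ _ δ ε η _ _ _ _ δ' ε' η' =>
      (∀ i, (δ i).Finitary) ∧ (∀ i j, (ε i j).Finitary) ∧ (∀ i j, (η i j).Finitary) ∧
      (∀ i, (δ' i).Finitary) ∧ (∀ i j, (ε' i j).Finitary) ∧ (∀ i j, (η' i j).Finitary)

namespace Fml

variable {σ : ℕ → Type} {k n : ℕ}

/-- The true formula. -/
def tru : Fml σ k n := conj PEmpty.{1} PEmpty.elim

/-- The false formula. -/
def fls : Fml σ k n := neg tru

theorem tru_holds {M : Type} (I : Str σ M) (a : Fin n → M) : (tru : Fml σ k n).Holds I a :=
  fun j => j.elim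

theorem fls_holds {M : Type} (I : Str σ M) (a : Fin n → M) :
    ¬ (fls : Fml σ k n).Holds I a := fun h => h (tru_holds I a)

theorem tru_fin : (tru : Fml σ k n).Finitary := ⟨inferInstance, fun j => j.elim⟩

theorem fls_fin : (fls : Fml σ k n).Finitary := tru_fin

end Fml

/-- Graphs without edges are isomorphic if and only if they have the same number of vertices. -/
theorem iso_edgeless {V V' : Type} [Finite V] [Finite V'] (G : SimpleGraph V)
    (G' : SimpleGraph V') (h : ∀ a b, ¬ G.Adj a b) (h' : ∀ a b, ¬ G'.Adj a b) :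
    Nonempty (G ≃g G') ↔ Nat.card V = Nat.card V' := by
  constructor
  · rintro ⟨e⟩
    exact Nat.card_congr e.toEquiv
  · intro hc
    obtain ⟨e⟩ := (Finite.card_eq).1 hc
    exact ⟨⟨e, by intro a b; exact iff_of_false (h' _ _) (h _ _)⟩⟩

section

variable {c : ℕ}

/-- The coordinates of the variables of a monomial with exponents `e`. -/
def co {D : ℕ} (e : Fin c → ℕ) (he : ∑ j, e j ≤ D) (q : Σ j : Fin c, Fin (e j)) : Fin D :=
  Fin.castLE he (finSigmaFinEquiv q)

theorem co_inj {D : ℕ} (e : Fin c → ℕ) (he : ∑ j, e j ≤ D) : Function.Injective (co e he) :=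
  (Fin.castLE_injective he).comp finSigmaFinEquiv.injective

variable {r D : ℕ} (e : Fin r → Fin c → ℕ) (he : ∀ i, ∑ j, e i j ≤ D)

/-- The presentation of an edgeless graph with `∑ i, ∏ j, x j ^ e i j` vertices. -/
def monPre (x : Fin c → ℕ) : Pre (Fin r × (Fin D → CSet x)) where
  dom u := ∀ q, (u.2 (co (e u.1) (he u.1) q)).1 = q.1
  eqv u w := u.1 = w.1 ∧ ∀ q, u.2 (co (e u.1) (he u.1) q) = w.2 (co (e u.1) (he u.1) q)
  adj _ _ := False

theorem monPre_adm (x : Fin c → ℕ) : (monPre e he x).Adm where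
  refl u _ := ⟨rfl, fun _ => rfl⟩
  symm u v _ _ h := by
    obtain ⟨i, t⟩ := u
    obtain ⟨j, s⟩ := v
    obtain ⟨h1, h2⟩ := h
    obtain rfl : i = j := h1
    exact ⟨rfl, fun q => (h2 q).symm⟩
  trans u v w _ _ _ h h' := by
    obtain ⟨i, t⟩ := u
    obtain ⟨j, s⟩ := v
    obtain ⟨l, p⟩ := w
    obtain ⟨h1, h2⟩ := h
    obtain ⟨h3, h4⟩ := h'
    obtain rfl : i = j := h1
    obtain rfl : i = l := h3
    exact ⟨rfl, fun q => (h2 q).trans (h4 q)⟩
  cong _ _ _ _ _ _ h := h.elim
  sadj _ _ _ _ h := h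
  loopless _ _ h := h

theorem monPre_card (x : Fin c → ℕ) (hx : x ≠ 0) :
    Nat.card (Quotient (monPre_adm e he x).setoid) = ∑ i, ∏ j, x j ^ e i j := by
  classical
  obtain ⟨j0, hj0⟩ := Function.ne_iff.1 hx
  have b0 : CSet x := ⟨j0, ⟨0, Nat.pos_of_ne_zero hj0⟩⟩
  let W := Σ i : Fin r, ((q : Σ j : Fin c, Fin (e i j)) → {b : CSet x // b.1 = q.1})
  let g : {u // (monPre e he x).dom u} → W := fun u =>
    ⟨u.1.1, fun q => ⟨u.1.2 (co (e u.1.1) (he u.1.1) q), u.2 q⟩⟩
  have hg : ∀ u v, g u = g v ↔ (monPre e he x).eqv u.1 v.1 := by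
    rintro ⟨⟨i, t⟩, hu⟩ ⟨⟨j, s⟩, hv⟩
    constructor
    · intro h
      have h1 : i = j := congrArg Sigma.fst h
      subst h1
      refine ⟨rfl, fun q => ?_⟩
      have h2 := eq_of_heq (Sigma.mk.inj h).2
      exact congrArg Subtype.val (congrFun h2 q)
    · rintro ⟨h1, h2⟩
      have h1 : i = j := h1
      subst h1
      have : (fun q => (⟨t (co (e i) (he i) q), hu q⟩ : {b : CSet x // b.1 = q.1})) =
          fun q => ⟨s (co (e i) (he i) q), hv q⟩ := by
        funext q
        exact Subtype.ext (h2 q)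
      show (⟨i, _⟩ : W) = ⟨i, _⟩
      rw [this]
  have hsurj : Function.Surjective g := by
    rintro ⟨i, f⟩
    let t : Fin D → CSet x := fun y =>
      if h : ∃ q, co (e i) (he i) q = y then (f h.choose).1 else b0
    have ht : ∀ q, t (co (e i) (he i) q) = (f q).1 := by
      intro q
      have hex : ∃ q', co (e i) (he i) q' = co (e i) (he i) q := ⟨q, rfl⟩
      have h1 : hex.choose = q := co_inj _ _ hex.choose_spec
      show (if h : ∃ q', co (e i) (he i) q' = co (e i) (he i) q then (f h.choose).1 else b0) = _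
      rw [dif_pos hex, h1]
    refine ⟨⟨(i, t), fun q => ?_⟩, ?_⟩
    · show (t (co (e i) (he i) q)).1 = q.1
      rw [ht]
      exact (f q).2
    · have : (fun q => (⟨t (co (e i) (he i) q), by rw [ht]; exact (f q).2⟩ :
          {b : CSet x // b.1 = q.1})) = f := by
        funext q
        exact Subtype.ext (ht q)
      show (⟨i, _⟩ : W) = ⟨i, f⟩
      rw [this]
  let G : Quotient (monPre_adm e he x).setoid → W :=
    Quotient.lift g fun u v h => (hg u v).2 h
  have hG : Function.Bijective G := by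
    constructor
    · intro a b
      induction a using Quotient.inductionOn
      induction b using Quotient.inductionOn
      intro h
      exact Quotient.sound ((hg _ _).1 h)
    · intro w
      obtain ⟨u, hu⟩ := hsurj w
      exact ⟨⟦u⟧, hu⟩
  rw [Nat.card_congr (Equiv.ofBijective G hG), Nat.card_sigma]
  refine Finset.sum_congr rfl fun i _ => ?_
  rw [Nat.card_pi, Fintype.prod_sigma]
  refine Finset.prod_congr rfl fun j _ => ?_
  have : Nat.card {b : CSet x // b.1 = j} = x j := by
    rw [Nat.card_congr (Equiv.sigmaSubtype j)]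
    simp
  rw [Finset.prod_congr rfl fun a _ => this]
  simp

variable (k : ℕ)

/-- The formulas for `monPre`. -/
def monDom (i : Fin r) : Fml (Col c) k (0 + D) :=
  .conj (Σ j : Fin c, Fin (e i j)) fun q =>
    .rel 1 (Col.mk q.1) fun _ => Fin.natAdd 0 (co (e i) (he i) q)

open Classical in
/-- The formulas for `monPre`. -/
noncomputable def monEqv (i j : Fin r) : Fml (Col c) k (0 + D + D) :=
  if i = j then .conj (Σ j : Fin c, Fin (e i j)) fun q =>
    .eq (Fin.castAdd D (Fin.natAdd 0 (co (e i) (he i) q)))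
      (Fin.natAdd (0 + D) (co (e i) (he i) q))
  else .fls

theorem monDom_holds (x : Fin c → ℕ) (a : Fin 0 → CSet x) (i : Fin r) (t : Fin D → CSet x) :
    (monDom e he k i).Holds (colStr x) (Fin.append a t) ↔ (monPre e he x).dom (i, t) := by
  simp only [monDom, Fml.Holds, monPre, colStr]
  refine forall_congr' fun q => ?_
  show (Fin.append a t (Fin.natAdd 0 (co (e i) (he i) q))).1 = q.1 ↔ _
  rw [Fin.append_right]

theorem monEqv_holds (x : Fin c → ℕ) (a : Fin 0 → CSet x) (i j : Fin r) (t s : Fin D → CSet x) :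
    (monEqv e he k i j).Holds (colStr x) (Fin.append (Fin.append a t) s) ↔
      (monPre e he x).eqv (i, t) (j, s) := by
  unfold monEqv
  split_ifs with h
  · simp only [Fml.Holds, monPre]
    rw [and_iff_right h]
    refine forall_congr' fun q => ?_
    rw [Fin.append_left, Fin.append_right, Fin.append_right]
  · constructor
    · intro hh
      exact absurd hh (Fml.fls_holds _ _)
    · rintro ⟨h1, -⟩
      exact absurd h1 h

theorem monDom_fin (i : Fin r) : (monDom e he k i).Finitary := ⟨inferInstance, fun _ => trivial⟩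

theorem monEqv_fin (i j : Fin r) : (monEqv e he k i j).Finitary := by
  unfold monEqv
  split_ifs with h
  · exact ⟨inferInstance, fun _ => trivial⟩
  · exact Fml.fls_fin

end

/-- The equation between two sums of monomials is definable. -/
theorem monomials_def {c r r' D k : ℕ} (e : Fin r → Fin c → ℕ) (he : ∀ i, ∑ j, e i j ≤ D)
    (e' : Fin r' → Fin c → ℕ) (he' : ∀ i, ∑ j, e' i j ≤ D) (hD : D + D + D ≤ k) (hr : r ≤ k)
    (hr' : r' ≤ k) : ∃ φ : Fml (Col c) k 0, φ.Finitary ∧ ∀ x : Fin c → ℕ, x ≠ 0 →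
      ∀ a : Fin 0 → CSet x, (φ.Holds (colStr x) a ↔
        ∑ i, ∏ j, x j ^ e i j = ∑ i, ∏ j, x j ^ e' i j) := by
  refine ⟨.iso D r (by omega) hr (monDom e he k) (monEqv e he k) (fun _ _ => .fls)
    D r' (by omega) hr' (monDom e' he' k) (monEqv e' he' k) (fun _ _ => .fls),
    ?_, fun x hx a => ?_⟩
  · simp only [Fml.Finitary]
    exact ⟨monDom_fin e he k, monEqv_fin e he k, fun _ _ => Fml.fls_fin, monDom_fin e' he' k,
      monEqv_fin e' he' k, fun _ _ => Fml.fls_fin⟩
  have h1 : ∀ {r : ℕ} (e : Fin r → Fin c → ℕ) (he : ∀ i, ∑ j, e i j ≤ D),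
      (⟨fun u => (monDom e he k u.1).Holds (colStr x) (Fin.append a u.2),
          fun u w => (monEqv e he k u.1 w.1).Holds (colStr x) (Fin.append (Fin.append a u.2) w.2),
          fun u w => (Fml.fls : Fml (Col c) k (0 + D + D)).Holds (colStr x)
            (Fin.append (Fin.append a u.2) w.2)⟩ :
          Pre (Fin r × (Fin D → CSet x))) = monPre e he x := by
    intro r e he
    have ed : (fun u : Fin r × (Fin D → CSet x) =>
        (monDom e he k u.1).Holds (colStr x) (Fin.append a u.2)) = (monPre e he x).dom := by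
      funext u
      exact propext (monDom_holds e he k x a u.1 u.2)
    have ee : (fun u w : Fin r × (Fin D → CSet x) =>
        (monEqv e he k u.1 w.1).Holds (colStr x) (Fin.append (Fin.append a u.2) w.2)) =
          (monPre e he x).eqv := by
      funext u w
      exact propext (monEqv_holds e he k x a u.1 w.1 u.2 w.2)
    have ea : (fun u w : Fin r × (Fin D → CSet x) => (Fml.fls : Fml (Col c) k (0 + D + D)).Holds
        (colStr x) (Fin.append (Fin.append a u.2) w.2)) = (monPre e he x).adj := by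
      funext u w
      exact propext (iff_of_false (Fml.fls_holds _ _) id)
    rw [ed, ee, ea]
  show Pre.Iso _ _ ↔ _
  rw [h1 e he, h1 e' he', ← monPre_card e he x hx, ← monPre_card e' he' x hx]
  have hne : ∀ {r : ℕ} (e : Fin r → Fin c → ℕ) (he : ∀ i, ∑ j, e i j ≤ D)
      (h : (monPre e he x).Adm) (a b : Quotient h.setoid), ¬ h.graph.Adj a b := by
    intro r e he h a b
    induction a using Quotient.inductionOn
    induction b using Quotient.inductionOn
    exact id
  constructor
  · rintro ⟨h, h', hi⟩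
    exact (iso_edgeless _ _ (hne e he h) (hne e' he' h')).1 hi
  · intro hc
    exact ⟨monPre_adm e he x, monPre_adm e' he' x,
      (iso_edgeless _ _ (hne e he _) (hne e' he' _)).2 hc⟩

end Pool.Agent.N585.GI
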