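import Pool.Agent.N585.GI.Conv

/-!
# Boolean combinations of polynomial equations are definable
-/

set_option autoImplicit false

namespace Pool.Agent.N585.GI

open Finset

/-- The value of an integer polynomial at a point with natural coordinates. -/
noncomputable def val {c : ℕ} (p : MvPolynomial (Fin c) ℤ) (x : Fin c → ℕ) : ℤ :=
  MvPolynomial.eval (fun i => (x i : ℤ)) p

theorem poly_def {c : ℕ} (p : MvPolynomial (Fin c) ℤ) : ∃ k0, ∀ k ≥ k0,
    ∃ φ : Fml (Col c) k 0, φ.Finitary ∧ ∀ x : Fin c → ℕ, x ≠ 0 → ∀ a : Fin 0 → CSet x,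
      (φ.Holds (colStr x) a ↔ val p x = 0) := by
  classical
  let S := Σ m : p.support, Fin (p.coeff m).toNat
  let S' := Σ m : p.support, Fin (-(p.coeff m)).toNat
  let E := Fintype.equivFin S
  let E' := Fintype.equivFin S'
  let D := ∑ m ∈ p.support, ∑ j, m j
  have hD : ∀ m : p.support, ∑ j, m.1 j ≤ D := fun m =>
    Finset.single_le_sum (f := fun m : Fin c →₀ ℕ => ∑ j, m j) (fun _ _ => Nat.zero_le _) m.2
  refine ⟨D + D + D + Fintype.card S + Fintype.card S', fun k hk => ?_⟩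
  obtain ⟨φ, hφ, hh⟩ := monomials_def (k := k) (D := D) (fun i j => (E.symm i).1.1 j)
    (fun i => hD _) (fun i j => (E'.symm i).1.1 j) (fun i => hD _) (by omega) (by omega)
    (by omega)
  refine ⟨φ, hφ, fun x hx a => ?_⟩
  rw [hh x hx a]
  have e1 : ∑ i, ∏ j, x j ^ (E.symm i).1.1 j =
      ∑ m ∈ p.support, (p.coeff m).toNat * ∏ j, x j ^ m j := by
    rw [Fintype.sum_equiv E.symm _ (fun s : S => ∏ j, x j ^ s.1.1 j) (fun _ => rfl),
      Fintype.sum_sigma, ← Finset.sum_coe_sort p.support]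
    exact Finset.sum_congr rfl fun m _ => by simp
  have e2 : ∑ i, ∏ j, x j ^ (E'.symm i).1.1 j =
      ∑ m ∈ p.support, (-(p.coeff m)).toNat * ∏ j, x j ^ m j := by
    rw [Fintype.sum_equiv E'.symm _ (fun s : S' => ∏ j, x j ^ s.1.1 j) (fun _ => rfl),
      Fintype.sum_sigma, ← Finset.sum_coe_sort p.support]
    exact Finset.sum_congr rfl fun m _ => by simp
  rw [e1, e2, ← Int.natCast_inj, ← sub_eq_zero]
  have e3 : ((∑ m ∈ p.support, (p.coeff m).toNat * ∏ j, x j ^ m j : ℕ) : ℤ) -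
      ((∑ m ∈ p.support, (-(p.coeff m)).toNat * ∏ j, x j ^ m j : ℕ) : ℤ) = val p x := by
    rw [val, MvPolynomial.eval_eq', Nat.cast_sum, Nat.cast_sum, ← Finset.sum_sub_distrib]
    refine Finset.sum_congr rfl fun m _ => ?_
    push_cast
    rw [← sub_mul]
    congr 1
    omega
  rw [e3]

/-- The set is a Boolean combination of zero sets of integer polynomials. -/
def Constructible {c : ℕ} (X : Set (Fin c → ℕ)) : Prop :=
  ∃ P : Finset (MvPolynomial (Fin c) ℤ), ∀ x x' : Fin c → ℕ,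
    (∀ p ∈ P, val p x = 0 ↔ val p x' = 0) → (x ∈ X ↔ x' ∈ X)

/-- There is an element. -/
def someElt {σ : ℕ → Type} {k : ℕ} (hk : 1 ≤ k) : Fml σ k 0 := .ex (by omega) .tru

theorem constructible_def {c : ℕ} {X : Set (Fin c → ℕ)} (h : Constructible X) :
    ∃ (k : ℕ) (φ : Fml (Col c) k 0), φ.Finitary ∧ ∀ (x : Fin c → ℕ) (a : Fin 0 → CSet x),
      x ∈ X ↔ φ.Holds (colStr x) a := by
  classical
  obtain ⟨P, hP⟩ := h
  choose k0 hk0 using fun p : MvPolynomial (Fin c) ℤ => poly_def p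
  let k := 1 + ∑ p ∈ P, k0 p
  have hk : ∀ p ∈ P, k0 p ≤ k := fun p hp =>
    (Finset.single_le_sum (f := k0) (fun _ _ => Nat.zero_le _) hp).trans (Nat.le_add_left _ _)
  have hφ : ∀ p : P, ∃ φ : Fml (Col c) k 0, φ.Finitary ∧ ∀ x : Fin c → ℕ, x ≠ 0 →
      ∀ a : Fin 0 → CSet x, (φ.Holds (colStr x) a ↔ val p.1 x = 0) :=
    fun p => hk0 p.1 k (hk p.1 p.2)
  choose Φ hΦ hΦ2 using hφ
  -- the zero patterns of the elements of the set
  let J := {S : Set P // ∃ x ∈ X, x ≠ 0 ∧ ∀ p : P, p ∈ S ↔ val p.1 x = 0}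
  let pat (S : Set P) : Fml (Col c) k 0 :=
    .conj P fun p => if p ∈ S then Φ p else .neg (Φ p)
  let Ψ : Fml (Col c) k 0 := .neg (.conj J fun S => .neg (pat S.1))
  have hpat : ∀ (S : Set P) (x : Fin c → ℕ), x ≠ 0 → ∀ a : Fin 0 → CSet x,
      ((pat S).Holds (colStr x) a ↔ ∀ p : P, p ∈ S ↔ val p.1 x = 0) := by
    intro S x hx a
    simp only [pat, Fml.Holds]
    refine forall_congr' fun p => ?_
    split_ifs with hp
    · rw [hΦ2 p x hx a]
      exact ⟨fun h => ⟨fun _ => h, fun _ => hp⟩, fun h => h.1 hp⟩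
    · rw [Fml.Holds, hΦ2 p x hx a]
      exact ⟨fun h => ⟨fun h' => absurd h' hp, fun h' => absurd h' h⟩, fun h h' => hp (h.2 h')⟩
  have hΨ : ∀ x : Fin c → ℕ, x ≠ 0 → ∀ a : Fin 0 → CSet x,
      (Ψ.Holds (colStr x) a ↔ x ∈ X) := by
    intro x hx a
    have : Ψ.Holds (colStr x) a ↔ ∃ S : J, (pat S.1).Holds (colStr x) a := by
      simp only [Ψ, Fml.Holds]
      push Not
      rfl
    rw [this]
    constructor
    · rintro ⟨⟨S, x', hx', hne, hS⟩, h⟩
      rw [hpat S x hx a] at h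
      refine (hP x x' fun p hp => ?_).2 hx'
      rw [← h ⟨p, hp⟩, ← hS ⟨p, hp⟩]
    · intro hX
      exact ⟨⟨{p | val p.1 x = 0}, x, hX, hx, fun p => Iff.rfl⟩,
        (hpat _ x hx a).2 fun p => Iff.rfl⟩
  have hΨfin : Ψ.Finitary := by
    refine ⟨inferInstance, fun S => ⟨inferInstance, fun p => ?_⟩⟩
    show (if p ∈ S.1 then Φ p else .neg (Φ p)).Finitary
    split_ifs
    · exact hΦ p
    · exact hΦ p
  have hne : ∀ (x : Fin c → ℕ) (a : Fin 0 → CSet x),
      ((someElt (k := k) (by omega) : Fml (Col c) k 0).Holds (colStr x) a ↔ x ≠ 0) := by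
    intro x a
    constructor
    · rintro ⟨b, -⟩ rfl
      exact b.2.elim0
    · intro hx
      obtain ⟨j, hj⟩ := Function.ne_iff.1 hx
      exact ⟨⟨j, ⟨0, Nat.pos_of_ne_zero hj⟩⟩, Fml.tru_holds _ _⟩
  by_cases h0 : (0 : Fin c → ℕ) ∈ X
  · refine ⟨k, .neg (.conj Bool fun b => if b then someElt (by omega) else .neg Ψ), ?_, ?_⟩
    · refine ⟨inferInstance, fun b => ?_⟩
      cases b
      · exact hΨfin
      · exact Fml.tru_fin
    · intro x a
      simp only [Fml.Holds, Bool.forall_bool, if_true, Bool.false_eq_true, if_false]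
      rw [hne]
      by_cases hx : x = 0
      · subst hx
        simp [h0]
      · rw [hΨ x hx a]
        simp [hx]
  · refine ⟨k, .conj Bool fun b => if b then someElt (by omega) else Ψ, ?_, ?_⟩
    · refine ⟨inferInstance, fun b => ?_⟩
      cases b
      · exact hΨfin
      · exact Fml.tru_fin
    · intro x a
      simp only [Fml.Holds, Bool.forall_bool, if_true, Bool.false_eq_true, if_false]
      rw [hne]
      by_cases hx : x = 0
      · subst hx
        simp [h0]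
      · rw [hΨ x hx a]
        simp [hx]

theorem ev_eq {c : ℕ} (x : Fin c → ℕ) (p : MvPolynomial (Fin c) ℤ) :
    CSetFam.ev c x p = (val p x : ℚ) := by
  have : CSetFam.ev c x = (Int.castRingHom ℚ).comp (MvPolynomial.eval (fun i => (x i : ℤ))) := by
    refine MvPolynomial.ringHom_ext (fun a => ?_) fun i => ?_
    · simp [CSetFam.ev]
    · simp [CSetFam.ev]
  rw [this]
  rfl

/-- A set which is defined by a formula is a Boolean combination of zero sets. -/
theorem def_constructible {σ : ℕ → Type} {c k : ℕ} (I : ∀ x : Fin c → ℕ, Str σ (CSet x))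
    (hI : (csetFam c).Inv I) : ∃ P : Finset (MvPolynomial (Fin c) ℤ), ∀ x x' : Fin c → ℕ,
      (∀ p ∈ P, val p x = 0 ↔ val p x' = 0) → ∀ (φ : Fml σ k 0) (a : Fin 0 → CSet x)
        (a' : Fin 0 → CSet x'), φ.Holds (I x) a ↔ φ.Holds (I x') a' := by
  obtain ⟨P, hP⟩ := finDet_holds (csetFam c) k I hI (csetFam_eqInv c)
  refine ⟨P, fun x x' h => hP x x' fun p hp => ?_⟩
  rw [ev_eq, ev_eq, Int.cast_eq_zero, Int.cast_eq_zero]
  exact h p hp

/-- **The power of isomorphism quantifiers on coloured sets.** -/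
theorem cset_main {c : ℕ} (X : Set (Fin c → ℕ)) :
    ((∃ (k : ℕ) (φ : Fml (Col c) k 0), ∀ (x : Fin c → ℕ) (a : Fin 0 → CSet x),
      x ∈ X ↔ φ.Holds (colStr x) a) ↔ Constructible X) ∧
    ((∃ (k : ℕ) (φ : Fml (Col c) k 0), φ.Finitary ∧ ∀ (x : Fin c → ℕ) (a : Fin 0 → CSet x),
      x ∈ X ↔ φ.Holds (colStr x) a) ↔ Constructible X) := by
  have h1 : (∃ (k : ℕ) (φ : Fml (Col c) k 0), ∀ (x : Fin c → ℕ) (a : Fin 0 → CSet x),
      x ∈ X ↔ φ.Holds (colStr x) a) → Constructible X := by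
    rintro ⟨k, φ, h⟩
    obtain ⟨P, hP⟩ := def_constructible (k := k) (fun x : Fin c → ℕ => colStr x) (csetFam_inv c)
    refine ⟨P, fun x x' hx => ?_⟩
    rw [h x Fin.elim0, h x' Fin.elim0]
    exact hP x x' hx φ _ _
  refine ⟨⟨h1, fun h => ?_⟩, ⟨fun ⟨k, φ, _, h⟩ => h1 ⟨k, φ, h⟩, constructible_def⟩⟩
  obtain ⟨k, φ, _, hh⟩ := constructible_def h
  exact ⟨k, φ, hh⟩

end Pool.Agent.N585.GI
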