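import Pool.Agent.N585.GI.Logic

/-!
# Embedding numbers of presented graphs
-/

set_option autoImplicit false

namespace Pool.Agent.N585.GI

open Finset

/-- Finite graphs with the same numbers of embeddings of finite graphs are isomorphic. -/
theorem iso_of_embeddings {V V' : Type} [Finite V] [Finite V'] (G : SimpleGraph V)
    (G' : SimpleGraph V')
    (h : ∀ (n : ℕ) (H : SimpleGraph (Fin n)), Nat.card (H ↪g G) = Nat.card (H ↪g G')) :
    Nonempty (G ≃g G') := by
  classical
  have := Fintype.ofFinite V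
  have := Fintype.ofFinite V'
  -- one graph embeds into the other one
  have key : ∀ {W W' : Type} [Fintype W] [Fintype W'] (K : SimpleGraph W) (K' : SimpleGraph W'),
      (∀ (n : ℕ) (H : SimpleGraph (Fin n)), Nat.card (H ↪g K) = Nat.card (H ↪g K')) →
      Nonempty (K ↪g K') := by
    intro W W' _ _ K K' hh
    let e := Fintype.equivFin W
    let H : SimpleGraph (Fin (Fintype.card W)) := K.comap e.symm
    let φ : H ≃g K := ⟨e.symm, by intro a b; rfl⟩
    have h1 : 0 < Nat.card (H ↪g K) := Nat.card_pos_iff.2 ⟨⟨φ.toEmbedding⟩, inferInstance⟩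
    rw [hh] at h1
    obtain ⟨⟨ψ⟩, -⟩ := Nat.card_pos_iff.1 h1
    exact ⟨ψ.comp φ.symm.toEmbedding⟩
  obtain ⟨f⟩ := key G G' h
  obtain ⟨g⟩ := key G' G (fun n H => (h n H).symm)
  have hc : Fintype.card V = Fintype.card V' :=
    le_antisymm (Fintype.card_le_of_injective f f.injective)
      (Fintype.card_le_of_injective g g.injective)
  have hb : Function.Bijective f :=
    (Fintype.bijective_iff_injective_and_card f).2 ⟨f.injective, hc⟩
  exact ⟨⟨Equiv.ofBijective f hb, by intro a b; exact f.map_adj_iff⟩⟩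

namespace Pre

variable {V : Type} [Fintype V] {P : Pre V}

open Classical in
/-- The number of representatives which represent the same vertex as `u`. -/
noncomputable def cls (P : Pre V) (u : V) : ℚ := ∑ v, if P.dom v ∧ P.eqv u v then 1 else 0

/-- `a` represents the vertex `c`. -/
def Rep (h : P.Adm) (a : V) (c : Quotient h.setoid) : Prop :=
  ∃ ha : P.dom a, (⟦⟨a, ha⟩⟧ : Quotient h.setoid) = c

theorem cls_pos (h : P.Adm) {u : V} (hu : P.dom u) : 0 < P.cls u := by
  classical
  unfold cls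
  rw [Finset.sum_boole]
  have : u ∈ univ.filter (fun v => P.dom v ∧ P.eqv u v) := by simp [hu, h.refl u hu]
  exact_mod_cast Finset.card_pos.2 ⟨u, this⟩

theorem rep_iff (h : P.Adm) {a b : V} (ha : P.dom a) :
    Rep h b (⟦⟨a, ha⟩⟧ : Quotient h.setoid) ↔ P.dom b ∧ P.eqv a b := by
  constructor
  · rintro ⟨hb, e⟩
    exact ⟨hb, h.symm _ _ hb ha (Quotient.exact e)⟩
  · rintro ⟨hb, e⟩
    exact ⟨hb, Quotient.sound (h.symm _ _ ha hb e)⟩

theorem cls_congr (h : P.Adm) {a b : V} (ha : P.dom a) (hb : P.dom b) (e : P.eqv a b) :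
    P.cls a = P.cls b := by
  classical
  unfold cls
  refine Finset.sum_congr rfl fun v _ => ?_
  congr 1
  apply propext
  constructor
  · rintro ⟨hv, f⟩
    exact ⟨hv, h.trans _ _ _ hb ha hv (h.symm _ _ ha hb e) f⟩
  · rintro ⟨hv, f⟩
    exact ⟨hv, h.trans _ _ _ ha hb hv e f⟩

open Classical in
theorem sum_rep (h : P.Adm) (c : Quotient h.setoid) :
    ∑ a, (if Rep h a c then (P.cls a)⁻¹ else 0) = 1 := by
  induction c using Quotient.inductionOn with
  | h c =>
  obtain ⟨a, ha⟩ := c
  have h1 : ∀ b, (if Rep h b (⟦⟨a, ha⟩⟧ : Quotient h.setoid) then (P.cls b)⁻¹ else 0) =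
      (if P.dom b ∧ P.eqv a b then 1 else 0) * (P.cls a)⁻¹ := by
    intro b
    by_cases hb : P.dom b ∧ P.eqv a b
    · rw [if_pos ((rep_iff h ha).2 hb), if_pos hb, one_mul, cls_congr h ha hb.1 hb.2]
    · rw [if_neg (fun x => hb ((rep_iff h ha).1 x)), if_neg hb, zero_mul]
  rw [Finset.sum_congr rfl fun b _ => h1 b, ← Finset.sum_mul]
  exact mul_inv_cancel₀ (cls_pos h ha).ne'

/-- `u` is a copy of the graph `H`. -/
def Copy (P : Pre V) {n : ℕ} (H : SimpleGraph (Fin n)) (u : Fin n → V) : Prop :=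
  (∀ w, P.dom (u w)) ∧ ∀ w w', (P.eqv (u w) (u w') → w = w') ∧
    (P.adj (u w) (u w') ↔ H.Adj w w')

open Classical in
/-- The number of embeddings is a weighted sum over the tuples of representatives. -/
theorem card_embeddings (h : P.Adm) {n : ℕ} (H : SimpleGraph (Fin n)) :
    (Nat.card (H ↪g h.graph) : ℚ) =
      ∑ u : Fin n → V, if P.Copy H u then ∏ w, (P.cls (u w))⁻¹ else 0 := by
  have i1 : Fintype (H ↪g h.graph) := Fintype.ofFinite _
  rw [Nat.card_eq_fintype_card]
  -- each embedding has total weight one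
  have h1 : ∀ φ : H ↪g h.graph,
      ∑ u : Fin n → V, ∏ w, (if Rep h (u w) (φ w) then (P.cls (u w))⁻¹ else 0) = 1 := by
    intro φ
    have := Finset.prod_univ_sum (fun _ : Fin n => (univ : Finset V))
      (fun w a => if Rep h a (φ w) then (P.cls a)⁻¹ else 0)
    rw [Fintype.piFinset_univ] at this
    rw [← this]
    exact Finset.prod_eq_one fun w _ => sum_rep h (φ w)
  have h2 : (Fintype.card (H ↪g h.graph) : ℚ) = ∑ φ : H ↪g h.graph, ∑ u : Fin n → V,
      ∏ w, (if Rep h (u w) (φ w) then (P.cls (u w))⁻¹ else 0) := by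
    rw [Finset.sum_congr rfl fun φ _ => h1 φ]
    simp
  rw [h2, Finset.sum_comm]
  refine Finset.sum_congr rfl fun u _ => ?_
  have h3 : ∀ φ : H ↪g h.graph,
      ∏ w, (if Rep h (u w) (φ w) then (P.cls (u w))⁻¹ else 0) =
        if ∀ w, Rep h (u w) (φ w) then ∏ w, (P.cls (u w))⁻¹ else 0 := by
    intro φ
    by_cases hr : ∀ w, Rep h (u w) (φ w)
    · rw [if_pos hr]
      exact Finset.prod_congr rfl fun w _ => if_pos (hr w)
    · rw [if_neg hr]
      push_neg at hr
      obtain ⟨w, hw⟩ := hr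
      exact Finset.prod_eq_zero (mem_univ w) (if_neg hw)
  rw [Finset.sum_congr rfl fun φ _ => h3 φ]
  by_cases hc : P.Copy H u
  · rw [if_pos hc]
    obtain ⟨hd, hp⟩ := hc
    let φ : H ↪g h.graph :=
      ⟨⟨fun w => (⟦⟨u w, hd w⟩⟧ : Quotient h.setoid), fun w w' e =>
        (hp w w').1 (Quotient.exact e)⟩, by
          intro w w'
          exact (hp w w').2⟩
    rw [Finset.sum_eq_single φ]
    · rw [if_pos fun w => ⟨hd w, rfl⟩]
    · intro ψ _ hψ
      rw [if_neg]
      intro hr
      apply hψ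
      ext w
      obtain ⟨h4, h5⟩ := hr w
      exact h5.symm
    · simp
  · rw [if_neg hc]
    refine Finset.sum_eq_zero fun φ _ => if_neg fun hr => hc ⟨fun w => (hr w).1, fun w w' => ?_⟩
    obtain ⟨h4, h5⟩ := hr w
    obtain ⟨h6, h7⟩ := hr w'
    constructor
    · intro e
      apply φ.injective
      rw [← h5, ← h7]
      exact Quotient.sound e
    · rw [← φ.map_adj_iff, ← h5, ← h7]
      rfl

end Pre

end Pool.Agent.N585.GI
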