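import Pool.Agent.N585.GI.Interp

/-!
# Sets which are not Boolean combinations of polynomial equations
-/

set_option autoImplicit false

namespace Pool.Agent.N585.GI

open Finset

theorem not_constructible_le : ¬ Constructible {x : Fin 2 → ℕ | x 0 ≤ x 1} := by
  rintro ⟨P, hP⟩
  obtain ⟨x, x', h, h1, h2⟩ := le_not_constructible P
  have h3 : x' 0 ≤ x' 1 := (hP x x' h).1 h1
  omega

/-- The zeros of a nonzero polynomial in one variable. -/
theorem finite_zeros_one {p : MvPolynomial (Fin 1) ℤ} (hp : p ≠ 0) :
    {n : ℕ | val p (fun _ => n) = 0}.Finite := by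
  classical
  by_contra hinf
  obtain ⟨S, hS, hcard⟩ := Set.Infinite.exists_subset_card_eq hinf (p.totalDegree + 1)
  apply hp
  refine MvPolynomial.eq_zero_of_eval_zero_at_prod_finset p
    (fun _ => S.image (Nat.cast : ℕ → ℤ)) (fun i => ?_) fun y hy => ?_
  · rw [Finset.card_image_of_injective _ Nat.cast_injective, hcard]
    have := MvPolynomial.degreeOf_le_totalDegree p i
    omega
  · obtain ⟨n, hn, hny⟩ := mem_image.1 (hy 0)
    have h1 : val p (fun _ => n) = 0 := hS hn
    have h2 : y = fun _ : Fin 1 => (n : ℤ) := by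
      funext i
      rw [Subsingleton.elim i 0, ← hny]
    rw [h2]
    exact h1

/-- Definable sets of cardinalities are finite or cofinite. -/
theorem constructible_one {X : Set (Fin 1 → ℕ)} (hX : Constructible X) :
    {n : ℕ | (fun _ => n) ∈ X}.Finite ∨ {n : ℕ | (fun _ => n) ∈ X}ᶜ.Finite := by
  classical
  obtain ⟨P, hP⟩ := hX
  let B : Set ℕ := ⋃ p ∈ P.filter (fun p => p ≠ 0), {n | val p (fun _ => n) = 0}
  have hB : B.Finite :=
    Set.Finite.biUnion (Finset.finite_toSet _) fun p hp => finite_zeros_one (mem_filter.1 hp).2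
  have hpat : ∀ n ∉ B, ∀ n' ∉ B, ((fun _ => n) ∈ X ↔ (fun _ => n') ∈ X) := by
    intro n hn n' hn'
    refine hP _ _ fun p hp => ?_
    by_cases hp0 : p = 0
    · simp [hp0, val]
    · have h1 : ∀ n ∉ B, val p (fun _ => n) ≠ 0 := by
        intro n hn h0
        exact hn (Set.mem_biUnion (mem_filter.2 ⟨hp, hp0⟩) h0)
      exact iff_of_false (h1 n hn) (h1 n' hn')
  by_cases h : ∃ n ∉ B, (fun _ => n) ∈ X
  · right
    obtain ⟨n, hn, hnX⟩ := h
    refine hB.subset fun n' hn' => ?_
    by_contra hc
    exact hn' ((hpat n hn n' hc).1 hnX)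
  · left
    push Not at h
    refine hB.subset fun n hn => ?_
    by_contra hc
    exact h n hc hn

theorem not_constructible_even : ¬ Constructible {x : Fin 1 → ℕ | Even (x 0)} := by
  intro h
  rcases constructible_one h with h1 | h1
  · refine (Set.infinite_of_injective_forall_mem (f := fun n : ℕ => 2 * n) ?_ ?_) h1
    · intro a b e
      have : 2 * a = 2 * b := e
      omega
    · intro n
      show Even (2 * n)
      exact even_two_mul n
  · refine (Set.infinite_of_injective_forall_mem (f := fun n : ℕ => 2 * n + 1) ?_ ?_) h1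
    · intro a b e
      have : 2 * a + 1 = 2 * b + 1 := e
      omega
    · intro n
      show ¬ Even (2 * n + 1)
      simp

end Pool.Agent.N585.GI
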