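import Mathlib

/-!
# Families of finite sets with types of tuples and algebraic extension numbers
-/

set_option autoImplicit false

namespace Pool.Agent.N585.GI

open Finset

/-- A family of finite sets `M x`, `x ∈ X`, with types of tuples, such that for each finite set of
tuples of one type the sums over the extensions by one element are given by the ring `A` of
functions on `X`. -/
structure Fam {X A : Type} [CommRing A] (ev : X → A →+* ℚ) (M : X → Type)
    [∀ x, Fintype (M x)] where
  /-- the types of tuples indexed by a given set -/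
  T : Type → Type
  fin : ∀ (ι : Type) [Finite ι], Finite (T ι)
  /-- substitution -/
  map : ∀ {ι κ : Type}, (κ → ι) → T ι → T κ
  /-- the type of a tuple -/
  tp : ∀ {x : X} {ι : Type}, (ι → M x) → T ι
  tp_comp : ∀ {x : X} {ι κ : Type} (t : ι → M x) (f : κ → ι), tp (t ∘ f) = map f (tp t)
  tp_empty : ∀ {x x' : X} {ι : Type} [IsEmpty ι] (t : ι → M x) (t' : ι → M x'), tp t = tp t'
  sum_one : ∀ (ι : Type) [Finite ι] (h : T (Option ι) → A), ∃ h' : T ι → A,
    ∀ (x : X) (t : ι → M x), ∑ b, ev x (h (tp (Option.elim' b t))) = ev x (h' (tp t))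

section

variable {X A : Type} [CommRing A] {ev : X → A →+* ℚ} {M : X → Type} [∀ x, Fintype (M x)]

namespace Fam

variable (F : Fam ev M)

theorem tp_congr {x x' : X} {ι κ : Type} {t : ι → M x} {t' : ι → M x'} (f : κ → ι)
    (h : F.tp t = F.tp t') : F.tp (t ∘ f) = F.tp (t' ∘ f) := by
  rw [F.tp_comp, F.tp_comp, h]

/-- Sums over the extensions by a finite tuple. -/
theorem sum_ext (κ : Type) [Finite κ] : ∀ (_ : Fintype κ) (_ : DecidableEq κ) (ι : Type)
    [Finite ι] (h : F.T (ι ⊕ κ) → A), ∃ h' : F.T ι → A, ∀ (x : X) (t : ι → M x),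
      ∑ s : κ → M x, ev x (h (F.tp (Sum.elim t s))) = ev x (h' (F.tp t)) := by
  induction κ using Finite.induction_empty_option with
  | @of_equiv κ κ' e ih =>
    intro i1 i2 ι _ h
    classical
    have i3 : Fintype κ := Fintype.ofEquiv _ e.symm
    have i4 : DecidableEq κ := e.decidableEq
    obtain ⟨h', hh⟩ := ih i3 i4 ι (fun τ => h (F.map (Sum.map id e.symm) τ))
    refine ⟨h', fun x t => ?_⟩
    rw [← hh x t]
    refine Fintype.sum_equiv (Equiv.arrowCongr e.symm (Equiv.refl (M x))) _ _ fun s => ?_
    congr 2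
    rw [← F.tp_comp]
    congr 1
    ext y
    rcases y with y | y
    · rfl
    · simp [Equiv.arrowCongr]
  | h_empty =>
    intro i1 i2 ι _ h
    refine ⟨fun τ => h (F.map (Sum.elim id (fun y => y.elim)) τ), fun x t => ?_⟩
    rw [Fintype.sum_unique]
    show _ = ev x (h (F.map (Sum.elim id (fun y => y.elim)) (F.tp t)))
    rw [← F.tp_comp]
    congr 3
    ext y
    rcases y with y | y
    · rfl
    · exact y.elim
  | @h_option κ hκ ih =>
    intro i1 i2 ι _ h
    classical
    have i4 : DecidableEq κ := fun a b => decidable_of_iff (some a = some b) (by simp)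
    let g : ι ⊕ Option κ → Option (ι ⊕ κ) :=
      Sum.elim (fun y => some (Sum.inl y)) (Option.elim' none (fun y => some (Sum.inr y)))
    have hf : Finite (ι ⊕ κ) := inferInstance
    obtain ⟨h1, hh1⟩ := F.sum_one (ι ⊕ κ) (fun τ => h (F.map g τ))
    obtain ⟨h', hh⟩ := ih hκ i4 ι h1
    refine ⟨h', fun x t => ?_⟩
    rw [← hh x t]
    have e1 : ∀ s : κ → M x, ev x (h1 (F.tp (Sum.elim t s))) =
        ∑ b, ev x (h (F.tp (Sum.elim t (Option.elim' b s)))) := by
      intro s
      rw [← hh1 x]
      refine Finset.sum_congr rfl fun b _ => ?_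
      rw [← F.tp_comp]
      congr 3
      ext y
      rcases y with y | y | y <;> rfl
    rw [Finset.sum_congr rfl fun s _ => e1 s]
    rw [← Fintype.sum_prod_type' (f := fun s b => ev x (h (F.tp (Sum.elim t (Option.elim' b s)))))]
    symm
    refine Fintype.sum_equiv
      { toFun := fun p => Option.elim' p.2 p.1
        invFun := fun s => (fun y => s (some y), s none)
        left_inv := fun p => rfl
        right_inv := fun s => by ext y; rcases y with _ | y <;> rfl } _ _ fun p => ?_
    rfl

end Fam

end

end Pool.Agent.N585.GI
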