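import Pool.Agent.N585.GI.Conv2

/-!
# Families interpreted in a family; satisfiability
-/

set_option autoImplicit false

namespace Pool.Agent.N585.GI

open Finset

section

variable {X A : Type} [CommRing A] {ev : X → A →+* ℚ} {M : X → Type} [∀ x, Fintype (M x)]

/-- The family of the sets of the `d`-tuples of given types. -/
noncomputable def Fam.tuples (F : Fam ev M) (d : ℕ) (D : Set (F.T (Fin d)))
    [∀ x, Fintype {u : Fin d → M x // F.tp u ∈ D}] :
    Fam ev (fun x => {u : Fin d → M x // F.tp u ∈ D}) where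
  T ι := F.T (ι × Fin d)
  fin ι _ := F.fin _
  map f τ := F.map (Prod.map f id) τ
  tp t := F.tp (fun q => (t q.1).1 q.2)
  tp_comp t f := by
    rw [← F.tp_comp]
    rfl
  tp_empty t t' := F.tp_empty _ _
  sum_one ι _ h := by
    classical
    let g : Option ι × Fin d → (ι × Fin d) ⊕ Fin d := fun q =>
      match q.1 with
      | none => Sum.inr q.2
      | some i => Sum.inl (i, q.2)
    obtain ⟨h', hh⟩ := F.sum_ext (Fin d) inferInstance inferInstance (ι × Fin d)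
      (fun σ => if F.map Sum.inr σ ∈ D then h (F.map g σ) else 0)
    refine ⟨h', fun x t => ?_⟩
    rw [← hh]
    have e1 : ∀ s : Fin d → M x, ev x (if F.map Sum.inr
        (F.tp (Sum.elim (fun q : ι × Fin d => (t q.1).1 q.2) s)) ∈ D then
          h (F.map g (F.tp (Sum.elim (fun q : ι × Fin d => (t q.1).1 q.2) s))) else 0) =
        if F.tp s ∈ D then ev x (h (F.map g (F.tp (Sum.elim (fun q : ι × Fin d =>
          (t q.1).1 q.2) s)))) else 0 := by
      intro s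
      rw [← F.tp_comp, Sum.elim_comp_inr]
      split_ifs
      · rfl
      · exact map_zero _
    rw [Finset.sum_congr rfl fun s _ => e1 s, ← Finset.sum_filter]
    symm
    refine Finset.sum_bij' (fun s hs => (⟨s, (mem_filter.1 hs).2⟩ :
      {u : Fin d → M x // F.tp u ∈ D})) (fun b _ => b.1) (fun s hs => mem_univ _)
      (fun b _ => mem_filter.2 ⟨mem_univ _, b.2⟩) (fun s hs => rfl) (fun b _ => rfl)
      (fun s hs => ?_)
    rw [← F.tp_comp]
    congr 3
    funext q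
    rcases q with ⟨_ | i, j⟩ <;> rfl

end

/-- The vocabulary of CNF formulas. -/
inductive Cnf : ℕ → Type
  /-- the element is a clause -/
  | cl : Cnf 1
  /-- the clause contains the positive literal of the variable -/
  | pos : Cnf 2
  /-- the clause contains the negative literal of the variable -/
  | neg : Cnf 2

/-- SATISFIABILITY: there is a set of (true) variables such that each clause contains a true
literal. -/
def Sat {U : Type} (I : Str Cnf U) : Prop :=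
  ∃ S : U → Prop, ∀ c, I 1 .cl (fun _ => c) →
    ∃ v, (I 2 .pos ![c, v] ∧ S v) ∨ (I 2 .neg ![c, v] ∧ ¬ S v)

namespace Php

/-- The types of the triples which are used: `(p, p, h)`, the variable `pigeon p is in hole h`;
`(p, p, p)`, the clause `pigeon p is in some hole`; `(p, p', h)`, `p ≠ p'`, the clause
`not both pigeons are in hole h`. -/
def D : Set ((csetFam 2).T (Fin 3)) :=
  {τ : CSetFam.T 2 (Fin 3) | τ.1 0 = 0 ∧ τ.1 1 = 0 ∧ (τ.1 2 = 1 ∨ (τ.2 0 1 ∧ τ.2 1 2))}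

/-- The universe of the pigeonhole formula. -/
abbrev U (x : Fin 2 → ℕ) : Type :=
  {u : Fin 3 → CSet x // (csetFam 2).tp u ∈ D}

noncomputable instance (x : Fin 2 → ℕ) : Fintype (U x) := Fintype.ofFinite _

/-- The pigeonhole formula with `x 0` pigeons and `x 1` holes as a structure. -/
def str (x : Fin 2 → ℕ) : Str Cnf (U x)
  | _, .cl, t => (((t 0).1 2).1 = 0) ∨ (t 0).1 0 ≠ (t 0).1 1
  | _, .pos, t => ((t 0).1 2).1 = 0 ∧ ((t 1).1 2).1 = 1 ∧ (t 1).1 0 = (t 1).1 1 ∧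
      (t 0).1 0 = (t 1).1 0
  | _, .neg, t => (t 0).1 0 ≠ (t 0).1 1 ∧ ((t 1).1 2).1 = 1 ∧ (t 1).1 0 = (t 1).1 1 ∧
      (t 1).1 2 = (t 0).1 2 ∧ ((t 1).1 0 = (t 0).1 0 ∨ (t 1).1 0 = (t 0).1 1)

theorem mem_D {x : Fin 2 → ℕ} (u : Fin 3 → CSet x) : (csetFam 2).tp u ∈ D ↔
    (u 0).1 = 0 ∧ (u 1).1 = 0 ∧ ((u 2).1 = 1 ∨ (u 0 = u 1 ∧ u 1 = u 2)) := Iff.rfl

theorem sat_iff (x : Fin 2 → ℕ) : Sat (str x) ↔ x 0 ≤ x 1 := by
  constructor
  · rintro ⟨S, hS⟩
    -- the clause of a pigeon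
    have h1 : ∀ i : Fin (x 0), ∃ j : Fin (x 1), ∃ h : _,
        S ⟨![⟨0, i⟩, ⟨0, i⟩, ⟨1, j⟩], h⟩ := by
      intro i
      obtain ⟨v, hv⟩ := hS ⟨![⟨0, i⟩, ⟨0, i⟩, ⟨0, i⟩], (mem_D _).2 ⟨rfl, rfl, Or.inr ⟨rfl, rfl⟩⟩⟩
        (Or.inl rfl)
      rcases hv with ⟨⟨-, h2, h3, h4⟩, h5⟩ | ⟨⟨h2, -⟩, -⟩
      · obtain ⟨v, hvD⟩ := v
        have e0 : v 0 = ⟨0, i⟩ := h4.symm
        have e1 : v 1 = ⟨0, i⟩ := (h3.symm.trans h4.symm)
        rcases hv2 : v 2 with ⟨a, j⟩
        have ha : a = 1 := by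
          have : (v 2).1 = 1 := h2
          rw [hv2] at this
          exact this
        subst ha
        have ev : v = ![⟨0, i⟩, ⟨0, i⟩, ⟨1, j⟩] := by
          funext y
          fin_cases y
          · exact e0
          · exact e1
          · exact hv2
        subst ev
        exact ⟨j, hvD, h5⟩
      · exact absurd rfl h2
    choose f hf hfS using h1
    have hinj : Function.Injective f := by
      intro i i' hij
      by_contra hne
      have hne2 : (⟨0, i⟩ : CSet x) ≠ ⟨0, i'⟩ := by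
        intro e
        exact hne (eq_of_heq (Sigma.mk.inj e).2)
      obtain ⟨v, hv⟩ := hS ⟨![⟨0, i⟩, ⟨0, i'⟩, ⟨1, f i⟩], (mem_D _).2 ⟨rfl, rfl, Or.inl rfl⟩⟩
        (Or.inr hne2)
      rcases hv with ⟨⟨h2, -⟩, -⟩ | ⟨⟨-, h3, h4, h5, h6⟩, h7⟩
      · exact absurd (show (1 : Fin 2) = 0 from h2) (by decide)
      · apply h7
        obtain ⟨v, hvD⟩ := v
        rcases h6 with h6 | h6
        · have ev : v = ![⟨0, i⟩, ⟨0, i⟩, ⟨1, f i⟩] := by
            funext y
            fin_cases y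
            · exact h6
            · exact h4.symm.trans h6
            · exact h5
          subst ev
          exact hfS i
        · have ev : v = ![⟨0, i'⟩, ⟨0, i'⟩, ⟨1, f i'⟩] := by
            funext y
            fin_cases y
            · exact h6
            · exact h4.symm.trans h6
            · rw [← hij]; exact h5
          subst ev
          exact hfS i'
    simpa using Fintype.card_le_of_injective f hinj
  · intro hle
    refine ⟨fun u => ((u.1 2).2 : ℕ) = ((u.1 0).2 : ℕ), ?_⟩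
    rintro ⟨c, hcD⟩ hc
    obtain ⟨hc0, hc1, hc2⟩ := (mem_D _).1 hcD
    rcases hc0' : c 0 with ⟨a, i⟩
    have ha : a = 0 := by rw [hc0'] at hc0; exact hc0
    subst ha
    rcases hc1' : c 1 with ⟨a, i'⟩
    have ha : a = 0 := by rw [hc1'] at hc1; exact hc1
    subst ha
    by_cases h2 : (c 2).1 = 0
    · refine ⟨⟨![⟨0, i⟩, ⟨0, i⟩, ⟨1, Fin.castLE hle i⟩], (mem_D _).2 ⟨rfl, rfl, Or.inl rfl⟩⟩,
        Or.inl ⟨⟨h2, rfl, rfl, hc0'⟩, ?_⟩⟩
      rfl
    · have h3 : (c 2).1 = 1 := by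
        rcases hc2 with h3 | ⟨h3, h4⟩
        · exact h3
        · rw [← h4] at h2; exact absurd hc1 h2
      have hne : c 0 ≠ c 1 := by
        rcases hc with hc | hc
        · exact absurd hc h2
        · exact hc
      rcases hc2' : c 2 with ⟨a, j⟩
      have ha : a = 1 := by rw [hc2'] at h3; exact h3
      subst ha
      -- one of the two pigeons does not use the hole
      by_cases hj : (j : ℕ) = (i : ℕ)
      · refine ⟨⟨![⟨0, i'⟩, ⟨0, i'⟩, ⟨1, j⟩], (mem_D _).2 ⟨rfl, rfl, Or.inl rfl⟩⟩,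
          Or.inr ⟨⟨hne, rfl, rfl, hc2'.symm, Or.inr hc1'.symm⟩, ?_⟩⟩
        show ¬ ((j : ℕ) = (i' : ℕ))
        intro h
        apply hne
        rw [hc0', hc1']
        have : i = i' := Fin.ext (hj.symm.trans h)
        rw [this]
      · exact ⟨⟨![⟨0, i⟩, ⟨0, i⟩, ⟨1, j⟩], (mem_D _).2 ⟨rfl, rfl, Or.inl rfl⟩⟩,
          Or.inr ⟨⟨hne, rfl, rfl, hc2'.symm, Or.inl hc0'.symm⟩, hj⟩⟩

/-- The family of the pigeonhole formulas. -/
noncomputable def fam : Fam (CSetFam.ev 2) (fun x => U x) := (csetFam 2).tuples 3 D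

theorem fam_eqInv : fam.EqInv := by
  intro m x x' t t' h i j
  have h1 : CSetFam.tp (fun q : Fin m × Fin 3 => (t q.1).1 q.2) =
    CSetFam.tp (fun q : Fin m × Fin 3 => (t' q.1).1 q.2) := h
  have h2 : ∀ q q' : Fin m × Fin 3, (t q.1).1 q.2 = (t q'.1).1 q'.2 ↔
      (t' q.1).1 q.2 = (t' q'.1).1 q'.2 := fun q q' =>
    iff_of_eq (congrFun (congrFun (congrArg Prod.snd h1) q) q')
  rw [Subtype.ext_iff, Subtype.ext_iff, funext_iff, funext_iff]
  exact forall_congr' fun y => h2 (i, y) (j, y)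

theorem fam_inv : fam.Inv (fun x => str x) := by
  intro m R x x' t t' h
  have h1 : CSetFam.tp (fun q : Fin m × Fin 3 => (t q.1).1 q.2) =
    CSetFam.tp (fun q : Fin m × Fin 3 => (t' q.1).1 q.2) := h
  have h2 : ∀ q q' : Fin m × Fin 3, (t q.1).1 q.2 = (t q'.1).1 q'.2 ↔
      (t' q.1).1 q.2 = (t' q'.1).1 q'.2 := fun q q' =>
    iff_of_eq (congrFun (congrFun (congrArg Prod.snd h1) q) q')
  have h3 : ∀ q : Fin m × Fin 3, ((t q.1).1 q.2).1 = ((t' q.1).1 q.2).1 := fun q =>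
    congrFun (congrArg Prod.fst h1) q
  cases R with
  | cl =>
    show (((t 0).1 2).1 = 0 ∨ (t 0).1 0 ≠ (t 0).1 1) ↔
      (((t' 0).1 2).1 = 0 ∨ (t' 0).1 0 ≠ (t' 0).1 1)
    rw [show ((t 0).1 2).1 = _ from h3 (0, 2), Ne, Ne, h2 (0, 0) (0, 1)]
  | pos =>
    show (((t 0).1 2).1 = 0 ∧ ((t 1).1 2).1 = 1 ∧ (t 1).1 0 = (t 1).1 1 ∧
      (t 0).1 0 = (t 1).1 0) ↔ (((t' 0).1 2).1 = 0 ∧ ((t' 1).1 2).1 = 1 ∧
      (t' 1).1 0 = (t' 1).1 1 ∧ (t' 0).1 0 = (t' 1).1 0)
    rw [show ((t 0).1 2).1 = _ from h3 (0, 2), show ((t 1).1 2).1 = _ from h3 (1, 2),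
      h2 (1, 0) (1, 1), h2 (0, 0) (1, 0)]
  | neg =>
    show ((t 0).1 0 ≠ (t 0).1 1 ∧ ((t 1).1 2).1 = 1 ∧ (t 1).1 0 = (t 1).1 1 ∧
      (t 1).1 2 = (t 0).1 2 ∧ ((t 1).1 0 = (t 0).1 0 ∨ (t 1).1 0 = (t 0).1 1)) ↔
      ((t' 0).1 0 ≠ (t' 0).1 1 ∧ ((t' 1).1 2).1 = 1 ∧ (t' 1).1 0 = (t' 1).1 1 ∧
      (t' 1).1 2 = (t' 0).1 2 ∧ ((t' 1).1 0 = (t' 0).1 0 ∨ (t' 1).1 0 = (t' 0).1 1))
    rw [show ((t 1).1 2).1 = _ from h3 (1, 2), Ne, Ne, h2 (0, 0) (0, 1), h2 (1, 0) (1, 1),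
      h2 (1, 2) (0, 2), h2 (1, 0) (0, 0), h2 (1, 0) (0, 1)]

end Php

/-- The order between two cardinalities is not a Boolean combination of polynomial equations. -/
theorem le_not_constructible (P : Finset (MvPolynomial (Fin 2) ℤ)) :
    ∃ x x' : Fin 2 → ℕ, (∀ p ∈ P, val p x = 0 ↔ val p x' = 0) ∧ x 0 ≤ x 1 ∧ x' 1 < x' 0 := by
  classical
  let q : MvPolynomial (Fin 2) ℤ := ∏ p ∈ P.filter (fun p => p ≠ 0), p
  have hq : q ≠ 0 := Finset.prod_ne_zero_iff.2 fun p hp => (mem_filter.1 hp).2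
  let N := q.totalDegree
  have key : ∀ s : Fin 2 → ℕ, ∃ x : Fin 2 → ℕ, (∀ i, s i ≤ x i ∧ x i ≤ s i + N) ∧
      val q x ≠ 0 := by
    intro s
    by_contra hcon
    push Not at hcon
    apply hq
    refine MvPolynomial.eq_zero_of_eval_zero_at_prod_finset q
      (fun i => (Finset.Icc (s i) (s i + N)).image (Nat.cast : ℕ → ℤ)) ?_ ?_
    · intro i
      rw [Finset.card_image_of_injective _ Nat.cast_injective, Nat.card_Icc]
      have := MvPolynomial.degreeOf_le_totalDegree q i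
      omega
    · intro y hy
      have h1 : ∀ i, ∃ a : ℕ, (s i ≤ a ∧ a ≤ s i + N) ∧ (a : ℤ) = y i := by
        intro i
        obtain ⟨a, ha, hay⟩ := mem_image.1 (hy i)
        exact ⟨a, mem_Icc.1 ha, hay⟩
      choose a ha hay using h1
      have h2 := hcon a ha
      rw [val] at h2
      rw [← funext hay]
      exact h2
  obtain ⟨x, hx, hxq⟩ := key ![0, N]
  obtain ⟨x', hx', hxq'⟩ := key ![N + 1, 0]
  have hpat : ∀ x : Fin 2 → ℕ, val q x ≠ 0 → ∀ p ∈ P, val p x = 0 ↔ p = 0 := by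
    intro x hx p hp
    constructor
    · intro h0
      by_contra hne
      apply hx
      rw [val, map_prod]
      exact Finset.prod_eq_zero (mem_filter.2 ⟨hp, hne⟩) h0
    · rintro rfl
      simp [val]
  refine ⟨x, x', fun p hp => (hpat x hxq p hp).trans (hpat x' hxq' p hp).symm, ?_, ?_⟩
  · have h0 := (hx 0).2
    have h1 := (hx 1).1
    simp only [Matrix.cons_val_zero, Matrix.cons_val_one, Matrix.cons_val_fin_one] at h0 h1
    omega
  · have h0 := (hx' 0).1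
    have h1 := (hx' 1).2
    simp only [Matrix.cons_val_zero, Matrix.cons_val_one, Matrix.cons_val_fin_one] at h0 h1
    omega

/-- **Satisfiability is not reducible to graph isomorphism by logical Turing reductions.** -/
theorem sat_main (k : ℕ) (φ : Fml Cnf k 0) : ∃ (U : Type) (_ : Finite U) (I : Str Cnf U),
    ¬ (Sat I ↔ φ.Holds I Fin.elim0) := by
  obtain ⟨P, hP⟩ := finDet_holds Php.fam k (fun x => Php.str x) Php.fam_inv Php.fam_eqInv
  obtain ⟨x, x', h, h1, h2⟩ := le_not_constructible P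
  by_contra hcon
  push Not at hcon
  have e1 := hcon (Php.U x) inferInstance (Php.str x)
  have e2 := hcon (Php.U x') inferInstance (Php.str x')
  have e3 := hP x x' (fun p hp => by
    rw [ev_eq, ev_eq, Int.cast_eq_zero, Int.cast_eq_zero]
    exact h p hp) φ Fin.elim0 Fin.elim0
  rw [Php.sat_iff] at e1 e2
  have : x' 0 ≤ x' 1 := e2.2 (e3.1 (e1.1 h1))
  omega

end Pool.Agent.N585.GI
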