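import Mathlib

/-!
# Bounded-variable infinitary logic with isomorphism quantifiers

`Fml σ k n`: formulas with `n` free variables of the logic with at most `k` variables over the
relational vocabulary `σ`, closed under arbitrary (infinite) conjunctions, negation, quantification,
substitution of variables, and under the isomorphism quantifier: two graphs are interpreted in the
structure (with parameters), and the formula says that they are isomorphic.
-/

set_option autoImplicit false

namespace Pool.Agent.N585.GI

/-- A structure of the relational vocabulary `σ` on the set `M`; `σ m` is the set of the `m`-ary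
relation symbols. -/
abbrev Str (σ : ℕ → Type) (M : Type) : Type := ∀ m, σ m → (Fin m → M) → Prop

/-- The presentation of a graph by a set of representatives of the vertices (`dom`), the equality
of the vertices they represent (`eqv`) and adjacency (`adj`). -/
structure Pre (V : Type) where
  dom : V → Prop
  eqv : V → V → Prop
  adj : V → V → Prop

namespace Pre

variable {V : Type} (P : Pre V)

/-- `eqv` is an equivalence relation on the representatives, and `adj` is a symmetric relation
between its classes and holds for no pair of equal classes. -/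
structure Adm : Prop where
  refl : ∀ u, P.dom u → P.eqv u u
  symm : ∀ u v, P.dom u → P.dom v → P.eqv u v → P.eqv v u
  trans : ∀ u v w, P.dom u → P.dom v → P.dom w → P.eqv u v → P.eqv v w → P.eqv u w
  cong : ∀ u v w, P.dom u → P.dom v → P.dom w → P.adj u v → P.eqv v w → P.adj u w
  sadj : ∀ u v, P.dom u → P.dom v → P.adj u v → P.adj v u
  loopless : ∀ u, P.dom u → ¬ P.adj u u

variable {P}

/-- The equivalence relation between the representatives. -/
def Adm.setoid (h : P.Adm) : Setoid {u // P.dom u} where
  r u v := P.eqv u v
  iseqv := ⟨fun u => h.refl u u.2, fun {u v} e => h.symm u v u.2 v.2 e,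
    fun {u v w} e f => h.trans u v w u.2 v.2 w.2 e f⟩

theorem Adm.cong2 (h : P.Adm) {u v u' v' : {u // P.dom u}} (e : P.eqv u u') (f : P.eqv v v') :
    P.adj u v ↔ P.adj u' v' := by
  have key : ∀ {u v u' v' : {u // P.dom u}}, P.eqv u u' → P.eqv v v' → P.adj u v →
      P.adj u' v' := by
    intro u v u' v' e f g
    have h1 := h.cong u v v' u.2 v.2 v'.2 g f
    have h2 := h.sadj u v' u.2 v'.2 h1
    have h3 := h.cong v' u u' v'.2 u.2 u'.2 h2 e
    exact h.sadj v' u' v'.2 u'.2 h3
  exact ⟨key e f, key (h.symm _ _ u.2 u'.2 e) (h.symm _ _ v.2 v'.2 f)⟩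

/-- The graph which is presented by `P`: its vertices are the classes of representatives. -/
def Adm.graph (h : P.Adm) : SimpleGraph (Quotient h.setoid) where
  Adj c c' := Quotient.liftOn₂ c c' (fun u v => P.adj u v)
    (fun _ _ _ _ e f => propext (h.cong2 e f))
  symm := by
    constructor
    intro c c'
    induction c using Quotient.inductionOn
    induction c' using Quotient.inductionOn
    exact fun g => h.sadj _ _ (Subtype.prop _) (Subtype.prop _) g
  loopless := by
    constructor
    intro c
    induction c using Quotient.inductionOn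
    exact h.loopless _ (Subtype.prop _)

/-- Both presentations are admissible and present isomorphic graphs. -/
def Iso {V V' : Type} (P : Pre V) (P' : Pre V') : Prop :=
  ∃ (h : P.Adm) (h' : P'.Adm), Nonempty (h.graph ≃g h'.graph)

end Pre

/-- Formulas with free variables `x_0, …, x_{n-1}` of the infinitary logic with isomorphism
quantifiers with `k` variables. -/
inductive Fml (σ : ℕ → Type) (k : ℕ) : ℕ → Type 1
  /-- the atomic formula `R (x_{v 0}, …, x_{v (m-1)})` -/
  | rel {n : ℕ} (m : ℕ) (R : σ m) (v : Fin m → Fin n) : Fml σ k n
  /-- the atomic formula `x_i = x_j` -/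
  | eq {n : ℕ} (i j : Fin n) : Fml σ k n
  /-- negation -/
  | neg {n : ℕ} (φ : Fml σ k n) : Fml σ k n
  /-- the conjunction of an arbitrary, possibly infinite family of formulas -/
  | conj {n : ℕ} (J : Type) (φ : J → Fml σ k n) : Fml σ k n
  /-- there is `x_n` such that `φ` -/
  | ex {n : ℕ} (h : n + 1 ≤ k) (φ : Fml σ k (n + 1)) : Fml σ k n
  /-- substitution of variables: `φ` for `x_{v 0}, …, x_{v (m-1)}` in place of
  `x_0, …, x_{m-1}` -/
  | sub {n : ℕ} (m : ℕ) (h : m ≤ k) (v : Fin m → Fin n) (φ : Fml σ k m) : Fml σ k n
  /-- the isomorphism quantifier: two graphs are interpreted, and they are isomorphic. The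
  vertices of the first graph are represented by the pairs of an element `i` of `Fin r` and a
  `d`-tuple for which `δ i` holds; `ε i j` defines the equality of the represented vertices, and
  `η i j` defines adjacency. All these formulas may contain the variables `x_0, …, x_{n-1}` as
  parameters. The same for the second graph. -/
  | iso {n : ℕ} (d r : ℕ) (h : n + d + d + d ≤ k) (hr : r ≤ k)
      (δ : Fin r → Fml σ k (n + d)) (ε η : Fin r → Fin r → Fml σ k (n + d + d))
      (d' r' : ℕ) (h' : n + d' + d' + d' ≤ k) (hr' : r' ≤ k)
      (δ' : Fin r' → Fml σ k (n + d')) (ε' η' : Fin r' → Fin r' → Fml σ k (n + d' + d')) :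
      Fml σ k n

/-- Satisfaction of the formula `φ` in the structure `I` on `M` by the assignment `a`. -/
def Fml.Holds {σ : ℕ → Type} {k : ℕ} {M : Type} (I : Str σ M) :
    ∀ {n : ℕ}, Fml σ k n → (Fin n → M) → Prop
  | _, .rel m R v, a => I m R (a ∘ v)
  | _, .eq i j, a => a i = a j
  | _, .neg φ, a => ¬ φ.Holds I a
  | _, .conj _ φ, a => ∀ j, (φ j).Holds I a
  | _, .ex _ φ, a => ∃ b : M, φ.Holds I (Fin.append a (fun _ : Fin 1 => b))
  | _, .sub _ _ v φ, a => φ.Holds I (a ∘ v)
  | _, .iso d r _ _ δ ε η d' r' _ _ δ' ε' η', a =>
      Pre.Iso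
        (⟨fun u => (δ u.1).Holds I (Fin.append a u.2),
          fun u w => (ε u.1 w.1).Holds I (Fin.append (Fin.append a u.2) w.2),
          fun u w => (η u.1 w.1).Holds I (Fin.append (Fin.append a u.2) w.2)⟩ :
          Pre (Fin r × (Fin d → M)))
        (⟨fun u => (δ' u.1).Holds I (Fin.append a u.2),
          fun u w => (ε' u.1 w.1).Holds I (Fin.append (Fin.append a u.2) w.2),
          fun u w => (η' u.1 w.1).Holds I (Fin.append (Fin.append a u.2) w.2)⟩ :
          Pre (Fin r' × (Fin d' → M)))

end Pool.Agent.N585.GI
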