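import Mathlib

/-!
# Quotients of functions from a ring, and common zeros
-/

set_option autoImplicit false

namespace Pool.Agent.N585.GI

open Finset

variable {X A : Type} [CommRing A] {ev : X → A →+* ℚ}

/-- The function `f` is a quotient of two elements of the ring on `C`, and the denominator has no
zero in `C`. -/
def RatOn (ev : X → A →+* ℚ) (C : Set X) (f : X → ℚ) : Prop :=
  ∃ a s : A, ∀ x ∈ C, ev x s ≠ 0 ∧ f x = ev x a / ev x s

namespace RatOn

variable {C : Set X} {f g : X → ℚ}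

theorem of_ev (a : A) : RatOn ev C (fun x => ev x a) :=
  ⟨a, 1, fun x _ => by simp⟩

theorem one : RatOn ev C (fun _ => 1) := ⟨1, 1, fun x _ => by simp⟩

theorem zero : RatOn ev C (fun _ => 0) := ⟨0, 1, fun x _ => by simp⟩

theorem congr (hf : RatOn ev C f) (h : ∀ x ∈ C, g x = f x) : RatOn ev C g := by
  obtain ⟨a, s, hs⟩ := hf
  exact ⟨a, s, fun x hx => ⟨(hs x hx).1, by rw [h x hx, (hs x hx).2]⟩⟩

theorem add (hf : RatOn ev C f) (hg : RatOn ev C g) : RatOn ev C (fun x => f x + g x) := by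
  obtain ⟨a, s, h1⟩ := hf
  obtain ⟨b, t, h2⟩ := hg
  refine ⟨a * t + s * b, s * t, fun x hx => ⟨?_, ?_⟩⟩
  · rw [map_mul]; exact mul_ne_zero (h1 x hx).1 (h2 x hx).1
  · show f x + g x = _
    rw [(h1 x hx).2, (h2 x hx).2, div_add_div _ _ (h1 x hx).1 (h2 x hx).1]
    simp

theorem mul (hf : RatOn ev C f) (hg : RatOn ev C g) : RatOn ev C (fun x => f x * g x) := by
  obtain ⟨a, s, h1⟩ := hf
  obtain ⟨b, t, h2⟩ := hg
  refine ⟨a * b, s * t, fun x hx => ⟨?_, ?_⟩⟩
  · rw [map_mul]; exact mul_ne_zero (h1 x hx).1 (h2 x hx).1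
  · show f x * g x = _
    rw [(h1 x hx).2, (h2 x hx).2, div_mul_div_comm]
    simp

theorem inv (hf : RatOn ev C f) (h0 : ∀ x ∈ C, f x ≠ 0) : RatOn ev C (fun x => (f x)⁻¹) := by
  obtain ⟨a, s, h1⟩ := hf
  refine ⟨s, a, fun x hx => ⟨fun h => ?_, ?_⟩⟩
  · exact h0 x hx (by rw [(h1 x hx).2, h, zero_div])
  · show (f x)⁻¹ = _
    rw [(h1 x hx).2, inv_div]

theorem sum {ι : Type*} (s : Finset ι) (f : ι → X → ℚ) (h : ∀ i ∈ s, RatOn ev C (f i)) :
    RatOn ev C (fun x => ∑ i ∈ s, f i x) := by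
  classical
  induction s using Finset.induction_on with
  | empty => simpa using RatOn.zero
  | insert a s ha ih =>
    simp only [Finset.sum_insert ha]
    exact (h a (mem_insert_self _ _)).add (ih fun i hi => h i (mem_insert_of_mem hi))

theorem prod {ι : Type*} (s : Finset ι) (f : ι → X → ℚ) (h : ∀ i ∈ s, RatOn ev C (f i)) :
    RatOn ev C (fun x => ∏ i ∈ s, f i x) := by
  classical
  induction s using Finset.induction_on with
  | empty => simpa using RatOn.one
  | insert a s ha ih =>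
    simp only [Finset.prod_insert ha]
    exact (h a (mem_insert_self _ _)).mul (ih fun i hi => h i (mem_insert_of_mem hi))

/-- The zeros in `C` are the zeros of an element of the ring. -/
theorem zeros (hf : RatOn ev C f) : ∃ a : A, ∀ x ∈ C, f x = 0 ↔ ev x a = 0 := by
  obtain ⟨a, s, h1⟩ := hf
  refine ⟨a, fun x hx => ?_⟩
  rw [(h1 x hx).2, div_eq_zero_iff]
  simp [(h1 x hx).1]

theorem eqs (hf : RatOn ev C f) (hg : RatOn ev C g) :
    ∃ a : A, ∀ x ∈ C, f x = g x ↔ ev x a = 0 := by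
  obtain ⟨a, ha⟩ := (hf.add ((of_ev (-1)).mul hg)).zeros
  refine ⟨a, fun x hx => ?_⟩
  rw [← ha x hx]
  simp only [map_neg, map_one]
  constructor
  · intro h; rw [h]; ring
  · intro h; linarith

/-- A finite family of quotients has a common denominator. -/
theorem common {ι : Type*} [Finite ι] (f : ι → X → ℚ) (h : ∀ i, RatOn ev C (f i)) :
    ∃ (a : ι → A) (s : A), ∀ x ∈ C, ev x s ≠ 0 ∧ ∀ i, f i x = ev x (a i) / ev x s := by
  classical
  have := Fintype.ofFinite ι
  choose a s hs using h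
  refine ⟨fun i => a i * ∏ j ∈ univ.erase i, s j, ∏ j, s j, fun x hx => ⟨?_, fun i => ?_⟩⟩
  · rw [map_prod]
    exact Finset.prod_ne_zero_iff.2 fun j _ => (hs j x hx).1
  · rw [(hs i x hx).2, map_mul, map_prod, map_prod, ← Finset.mul_prod_erase univ _ (mem_univ i)]
    rw [mul_div_mul_right]
    exact Finset.prod_ne_zero_iff.2 fun j _ => (hs j x hx).1

end RatOn

/-- The common zeros of a family of elements of a noetherian ring are the common zeros of finitely
many of them. -/
theorem finite_zeros [IsNoetherianRing A] {ι : Type*} (q : ι → A) :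
    ∃ P : Finset A, (∀ a ∈ P, ∃ i, q i = a) ∧
      ∀ x : X, (∀ a ∈ P, ev x a = 0) → ∀ i, ev x (q i) = 0 := by
  have h1 : (Submodule.span A (Set.range q)).FG := IsNoetherian.noetherian _
  obtain ⟨P, hP, hs⟩ := (Submodule.fg_span_iff_fg_span_finset_subset _).1 h1
  refine ⟨P, fun a ha => hP ha, fun x hx i => ?_⟩
  have h2 : q i ∈ Submodule.span A (P : Set A) := by
    rw [← hs]; exact Submodule.subset_span ⟨i, rfl⟩
  have h3 : Submodule.span A (P : Set A) ≤ RingHom.ker (ev x) := by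
    rw [Submodule.span_le]
    intro a ha
    exact hx a ha
  exact h3 h2

end Pool.Agent.N585.GI
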