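import Pool.Agent.N585.GI.Emb
import Pool.Agent.N585.GI.Fam
import Pool.Agent.N585.GI.Rat

/-!
# The truth values of formulas depend on the zeros of finitely many elements of the ring
-/

set_option autoImplicit false

namespace Pool.Agent.N585.GI

open Finset

theorem comp_append {α β : Type} {m n : ℕ} (g : α → β) (a : Fin m → α) (b : Fin n → α) :
    g ∘ Fin.append a b = Fin.append (g ∘ a) (g ∘ b) := by
  funext y
  refine Fin.addCases (fun y => ?_) (fun y => ?_) y <;> simp

theorem append_eq_elim {α : Type} {m n : ℕ} (a : Fin m → α) (b : Fin n → α) :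
    Fin.append a b = Sum.elim a b ∘ (Fin.append Sum.inl Sum.inr : Fin (m + n) → Fin m ⊕ Fin n) := by
  rw [comp_append]
  rfl

theorem append_left {α : Type} {m n : ℕ} (a : Fin m → α) (b : Fin n → α) :
    Fin.append a b ∘ Fin.castAdd n = a := by
  funext y; simp

theorem append_right {α : Type} {m n : ℕ} (a : Fin m → α) (b : Fin n → α) :
    Fin.append a b ∘ Fin.natAdd m = b := by
  funext y; simp

/-- The index map which forgets the middle block. -/
def dropMid (n d e : ℕ) : Fin (n + e) → Fin (n + d + e) :=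
  Fin.append (Fin.castAdd e ∘ Fin.castAdd d) (Fin.natAdd (n + d))

theorem comp_dropMid {α : Type} {n d e : ℕ} (a : Fin n → α) (b : Fin d → α) (c : Fin e → α) :
    Fin.append (Fin.append a b) c ∘ dropMid n d e = Fin.append a c := by
  rw [dropMid, comp_append, ← Function.comp_assoc, append_left, append_left, append_right]

/-- The index map which forgets the second of four blocks. -/
def dropSnd (n d e f : ℕ) : Fin (n + e + f) → Fin (n + d + e + f) :=
  Fin.append (Fin.castAdd f ∘ dropMid n d e) (Fin.natAdd (n + d + e))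

theorem comp_dropSnd {α : Type} {n d e f : ℕ} (a : Fin n → α) (b : Fin d → α) (c : Fin e → α)
    (g : Fin f → α) :
    Fin.append (Fin.append (Fin.append a b) c) g ∘ dropSnd n d e f =
      Fin.append (Fin.append a c) g := by
  rw [dropSnd, comp_append, ← Function.comp_assoc, append_left, comp_dropMid, append_right]

/-- The index map which exchanges the last two blocks. -/
def swapLast (n d e : ℕ) : Fin (n + e + d) → Fin (n + d + e) :=
  Fin.append (dropMid n d e) (Fin.castAdd e ∘ Fin.natAdd n)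

theorem comp_swapLast {α : Type} {n d e : ℕ} (a : Fin n → α) (b : Fin d → α) (c : Fin e → α) :
    Fin.append (Fin.append a b) c ∘ swapLast n d e = Fin.append (Fin.append a c) b := by
  rw [swapLast, comp_append, ← Function.comp_assoc, comp_dropMid, append_left, append_right]

section

variable {X A : Type} [CommRing A] {ev : X → A →+* ℚ} {M : X → Type} [∀ x, Fintype (M x)]
  (F : Fam ev M)

namespace Fam

theorem sum_append {n d : ℕ} (h : F.T (Fin (n + d)) → A) : ∃ h' : F.T (Fin n) → A,
    ∀ (x : X) (z : Fin n → M x), ∑ t : Fin d → M x, ev x (h (F.tp (Fin.append z t))) =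
      ev x (h' (F.tp z)) := by
  obtain ⟨h', hh⟩ := F.sum_ext (Fin d) inferInstance inferInstance (Fin n)
    (fun τ => h (F.map (Fin.append Sum.inl Sum.inr) τ))
  refine ⟨h', fun x z => ?_⟩
  rw [← hh]
  refine Finset.sum_congr rfl fun t _ => ?_
  rw [← F.tp_comp, ← append_eq_elim]

open Classical in
theorem count_append {n d : ℕ} (τ : F.T (Fin (n + d))) : ∃ h' : F.T (Fin n) → A,
    ∀ (x : X) (z : Fin n → M x),
      ((univ.filter fun t : Fin d → M x => F.tp (Fin.append z t) = τ).card : ℚ) =
        ev x (h' (F.tp z)) := by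
  obtain ⟨h', hh⟩ := F.sum_append (n := n) (d := d) (fun σ => if σ = τ then 1 else 0)
  refine ⟨h', fun x z => ?_⟩
  rw [← hh, ← Finset.sum_boole]
  refine Finset.sum_congr rfl fun t _ => ?_
  by_cases h : F.tp (Fin.append z t) = τ <;> simp [h]

/-- The same types of tuples of length at most `k` occur. -/
def Sim (k : ℕ) (x x' : X) : Prop :=
  ∀ N ≤ k, ∀ τ : F.T (Fin N), (∃ t : Fin N → M x, F.tp t = τ) ↔ ∃ t : Fin N → M x', F.tp t = τ

variable {F}

theorem Sim.symm {k : ℕ} {x x' : X} (h : F.Sim k x x') : F.Sim k x' x :=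
  fun N hN τ => (h N hN τ).symm

theorem Sim.extend {k : ℕ} {x x' : X} (h : F.Sim k x x') {n d : ℕ} (hn : n + d ≤ k)
    {z : Fin n → M x} {z' : Fin n → M x'} (hz : F.tp z = F.tp z') (t : Fin d → M x) :
    ∃ t' : Fin d → M x', F.tp (Fin.append z t) = F.tp (Fin.append z' t') := by
  classical
  obtain ⟨s, hs⟩ := (h _ hn _).1 ⟨Fin.append z t, rfl⟩
  obtain ⟨h', hh⟩ := F.count_append (n := n) (d := d) (F.tp (Fin.append z t))
  have h1 : F.tp (s ∘ Fin.castAdd d) = F.tp z' := by
    rw [F.tp_congr _ hs, append_left, hz]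
  have h2 := hh x' (s ∘ Fin.castAdd d)
  rw [h1, ← hh x' z'] at h2
  have h3 : s ∘ Fin.natAdd n ∈ univ.filter (fun t' : Fin d → M x' =>
      F.tp (Fin.append (s ∘ Fin.castAdd d) t') = F.tp (Fin.append z t)) := by
    simp only [mem_filter, mem_univ, true_and]
    rw [← hs]
    congr 1
    funext y
    refine Fin.addCases (fun y => ?_) (fun y => ?_) y <;> simp
  have h4 := Finset.card_pos.2 ⟨_, h3⟩
  have h5 : 0 < (univ.filter (fun t' : Fin d → M x' =>
      F.tp (Fin.append z' t') = F.tp (Fin.append z t))).card := by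
    have : (0 : ℚ) < ((univ.filter (fun t' : Fin d → M x' =>
        F.tp (Fin.append (s ∘ Fin.castAdd d) t') = F.tp (Fin.append z t))).card : ℚ) := by
      exact_mod_cast h4
    rw [h2] at this
    exact_mod_cast this
  obtain ⟨t', ht'⟩ := Finset.card_pos.1 h5
  exact ⟨t', (mem_filter.1 ht').2.symm⟩

end Fam

/-- Sets of types which define two formulas for a graph with `d`-tuples of `r` sorts, with `n`
parameters. -/
abbrev Dat (n d r : ℕ) : Type :=
  (Fin r → Set (F.T (Fin (n + d)))) × (Fin r → Fin r → Set (F.T (Fin (n + d + d)))) ×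
    (Fin r → Fin r → Set (F.T (Fin (n + d + d))))

namespace Dat

variable {F} {n d r : ℕ}

/-- The presentation which is defined by sets of types. -/
def pre (D : Dat F n d r) {x : X} (z : Fin n → M x) : Pre (Fin r × (Fin d → M x)) where
  dom u := F.tp (Fin.append z u.2) ∈ D.1 u.1
  eqv u w := F.tp (Fin.append (Fin.append z u.2) w.2) ∈ D.2.1 u.1 w.1
  adj u w := F.tp (Fin.append (Fin.append z u.2) w.2) ∈ D.2.2 u.1 w.1

theorem adm_of_sim (D : Dat F n d r) {k : ℕ} (hk : n + d + d + d ≤ k) {x x' : X}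
    (h : F.Sim k x x') {z : Fin n → M x} {z' : Fin n → M x'} (hz : F.tp z = F.tp z')
    (ha : (D.pre z).Adm) : (D.pre z').Adm := by
  -- pull back up to three tuples
  have ex1 : ∀ t : Fin d → M x', ∃ t0 : Fin d → M x,
      F.tp (Fin.append z' t) = F.tp (Fin.append z t0) :=
    fun t => h.symm.extend (by omega) hz.symm t
  have ex2 : ∀ t s : Fin d → M x', ∃ t0 s0 : Fin d → M x,
      F.tp (Fin.append (Fin.append z' t) s) = F.tp (Fin.append (Fin.append z t0) s0) := by
    intro t s
    obtain ⟨t0, h0⟩ := ex1 t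
    obtain ⟨s0, h1⟩ := h.symm.extend (by omega) h0 s
    exact ⟨t0, s0, h1⟩
  have ex3 : ∀ t s p : Fin d → M x', ∃ t0 s0 p0 : Fin d → M x,
      F.tp (Fin.append (Fin.append (Fin.append z' t) s) p) =
        F.tp (Fin.append (Fin.append (Fin.append z t0) s0) p0) := by
    intro t s p
    obtain ⟨t0, s0, h0⟩ := ex2 t s
    obtain ⟨p0, h1⟩ := h.symm.extend (by omega) h0 p
    exact ⟨t0, s0, p0, h1⟩
  refine ⟨?_, ?_, ?_, ?_, ?_, ?_⟩
  · rintro ⟨i, t⟩ h1
    obtain ⟨t0, e⟩ := ex1 t
    have e2 : F.tp (Fin.append (Fin.append z' t) t) = F.tp (Fin.append (Fin.append z t0) t0) := by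
      have := F.tp_congr (Fin.append id (Fin.natAdd n) : Fin (n + d + d) → Fin (n + d)) e
      rwa [comp_append, comp_append, Function.comp_id, Function.comp_id, append_right,
        append_right] at this
    have h2 := ha.refl (i, t0) (by simpa [pre, e] using h1)
    simpa [pre, e2] using h2
  · rintro ⟨i, t⟩ ⟨j, s⟩ h1 h2 h3
    obtain ⟨t0, s0, e⟩ := ex2 t s
    have e1 : F.tp (Fin.append z' t) = F.tp (Fin.append z t0) := by
      have := F.tp_congr (Fin.castAdd d) e
      rwa [append_left, append_left] at this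
    have e2 : F.tp (Fin.append z' s) = F.tp (Fin.append z s0) := by
      have := F.tp_congr (dropMid n d d) e
      rwa [comp_dropMid, comp_dropMid] at this
    have e3 : F.tp (Fin.append (Fin.append z' s) t) = F.tp (Fin.append (Fin.append z s0) t0) := by
      have := F.tp_congr (swapLast n d d) e
      rwa [comp_swapLast, comp_swapLast] at this
    have h4 := ha.symm (i, t0) (j, s0) (by simpa [pre, e1] using h1)
      (by simpa [pre, e2] using h2) (by simpa [pre, e] using h3)
    simpa [pre, e3] using h4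
  · rintro ⟨i, t⟩ ⟨j, s⟩ ⟨l, p⟩ h1 h2 h3 h4 h5
    obtain ⟨t0, s0, p0, e⟩ := ex3 t s p
    have e12 : F.tp (Fin.append (Fin.append z' t) s) = F.tp (Fin.append (Fin.append z t0) s0) := by
      have := F.tp_congr (Fin.castAdd d) e
      rwa [append_left, append_left] at this
    have e13 : F.tp (Fin.append (Fin.append z' t) p) = F.tp (Fin.append (Fin.append z t0) p0) := by
      have := F.tp_congr (dropMid (n + d) d d) e
      rwa [comp_dropMid, comp_dropMid] at this
    have e23 : F.tp (Fin.append (Fin.append z' s) p) = F.tp (Fin.append (Fin.append z s0) p0) := by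
      have := F.tp_congr (dropSnd n d d d) e
      rwa [comp_dropSnd, comp_dropSnd] at this
    have e1 : F.tp (Fin.append z' t) = F.tp (Fin.append z t0) := by
      have := F.tp_congr (Fin.castAdd d) e12
      rwa [append_left, append_left] at this
    have e2 : F.tp (Fin.append z' s) = F.tp (Fin.append z s0) := by
      have := F.tp_congr (dropMid n d d) e12
      rwa [comp_dropMid, comp_dropMid] at this
    have e3 : F.tp (Fin.append z' p) = F.tp (Fin.append z p0) := by
      have := F.tp_congr (dropMid n d d) e13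
      rwa [comp_dropMid, comp_dropMid] at this
    have h6 := ha.trans (i, t0) (j, s0) (l, p0) (by simpa [pre, e1] using h1)
      (by simpa [pre, e2] using h2) (by simpa [pre, e3] using h3)
      (by simpa [pre, e12] using h4) (by simpa [pre, e23] using h5)
    simpa [pre, e13] using h6
  · rintro ⟨i, t⟩ ⟨j, s⟩ ⟨l, p⟩ h1 h2 h3 h4 h5
    obtain ⟨t0, s0, p0, e⟩ := ex3 t s p
    have e12 : F.tp (Fin.append (Fin.append z' t) s) = F.tp (Fin.append (Fin.append z t0) s0) := by
      have := F.tp_congr (Fin.castAdd d) e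
      rwa [append_left, append_left] at this
    have e13 : F.tp (Fin.append (Fin.append z' t) p) = F.tp (Fin.append (Fin.append z t0) p0) := by
      have := F.tp_congr (dropMid (n + d) d d) e
      rwa [comp_dropMid, comp_dropMid] at this
    have e23 : F.tp (Fin.append (Fin.append z' s) p) = F.tp (Fin.append (Fin.append z s0) p0) := by
      have := F.tp_congr (dropSnd n d d d) e
      rwa [comp_dropSnd, comp_dropSnd] at this
    have e1 : F.tp (Fin.append z' t) = F.tp (Fin.append z t0) := by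
      have := F.tp_congr (Fin.castAdd d) e12
      rwa [append_left, append_left] at this
    have e2 : F.tp (Fin.append z' s) = F.tp (Fin.append z s0) := by
      have := F.tp_congr (dropMid n d d) e12
      rwa [comp_dropMid, comp_dropMid] at this
    have e3 : F.tp (Fin.append z' p) = F.tp (Fin.append z p0) := by
      have := F.tp_congr (dropMid n d d) e13
      rwa [comp_dropMid, comp_dropMid] at this
    have h6 := ha.cong (i, t0) (j, s0) (l, p0) (by simpa [pre, e1] using h1)
      (by simpa [pre, e2] using h2) (by simpa [pre, e3] using h3)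
      (by simpa [pre, e12] using h4) (by simpa [pre, e23] using h5)
    simpa [pre, e13] using h6
  · rintro ⟨i, t⟩ ⟨j, s⟩ h1 h2 h3
    obtain ⟨t0, s0, e⟩ := ex2 t s
    have e1 : F.tp (Fin.append z' t) = F.tp (Fin.append z t0) := by
      have := F.tp_congr (Fin.castAdd d) e
      rwa [append_left, append_left] at this
    have e2 : F.tp (Fin.append z' s) = F.tp (Fin.append z s0) := by
      have := F.tp_congr (dropMid n d d) e
      rwa [comp_dropMid, comp_dropMid] at this
    have e3 : F.tp (Fin.append (Fin.append z' s) t) = F.tp (Fin.append (Fin.append z s0) t0) := by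
      have := F.tp_congr (swapLast n d d) e
      rwa [comp_swapLast, comp_swapLast] at this
    have h4 := ha.sadj (i, t0) (j, s0) (by simpa [pre, e1] using h1)
      (by simpa [pre, e2] using h2) (by simpa [pre, e] using h3)
    simpa [pre, e3] using h4
  · rintro ⟨i, t⟩ h1 h3
    obtain ⟨t0, e⟩ := ex1 t
    have e2 : F.tp (Fin.append (Fin.append z' t) t) = F.tp (Fin.append (Fin.append z t0) t0) := by
      have := F.tp_congr (Fin.append id (Fin.natAdd n) : Fin (n + d + d) → Fin (n + d)) e
      rwa [comp_append, comp_append, Function.comp_id, Function.comp_id, append_right,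
        append_right] at this
    exact ha.loopless (i, t0) (by simpa [pre, e] using h1) (by simpa [pre, e2] using h3)

/-- The numbers of representatives of a vertex are given by the ring. -/
theorem cls_eq (D : Dat F n d r) : ∃ c : Fin r → F.T (Fin (n + d)) → A,
    ∀ (x : X) (z : Fin n → M x) (u : Fin r × (Fin d → M x)),
      (D.pre z).cls u = ev x (c u.1 (F.tp (Fin.append z u.2))) := by
  classical
  choose h' hh using fun i j : Fin r => F.sum_append (n := n + d) (d := d) (fun σ =>
    if F.map (dropMid n d d) σ ∈ D.1 j ∧ σ ∈ D.2.1 i j then 1 else 0)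
  refine ⟨fun i τ => ∑ j, h' i j τ, fun x z u => ?_⟩
  obtain ⟨i, t⟩ := u
  show (D.pre z).cls (i, t) = ev x (∑ j, h' i j (F.tp (Fin.append z t)))
  rw [map_sum]
  unfold Pre.cls
  rw [Fintype.sum_prod_type]
  refine Finset.sum_congr rfl fun j _ => ?_
  rw [← hh i j x]
  refine Finset.sum_congr rfl fun s _ => ?_
  rw [← F.tp_comp, comp_dropMid]
  by_cases hc : (D.pre z).dom (j, s) ∧ (D.pre z).eqv (i, t) (j, s)
  · rw [if_pos hc]
    exact ((congrArg (ev x) (if_pos hc)).trans (map_one _)).symm
  · rw [if_neg hc]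
    exact ((congrArg (ev x) (if_neg hc)).trans (map_zero _)).symm

/-- The index map of the block `w` together with the parameters. -/
def blk (n d v : ℕ) (w : Fin v) : Fin (n + d) → Fin n ⊕ (Fin v × Fin d) :=
  Fin.append Sum.inl (fun j => Sum.inr (w, j))

/-- The index map of the blocks `w` and `w'` together with the parameters. -/
def blk2 (n d v : ℕ) (w w' : Fin v) : Fin (n + d + d) → Fin n ⊕ (Fin v × Fin d) :=
  Fin.append (blk n d v w) (fun j => Sum.inr (w', j))

theorem comp_blk {α : Type} {v : ℕ} (w : Fin v) (z : Fin n → α) (s : Fin v × Fin d → α) :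
    Sum.elim z s ∘ blk n d v w = Fin.append z (fun j => s (w, j)) := by
  rw [blk, comp_append]; rfl

theorem comp_blk2 {α : Type} {v : ℕ} (w w' : Fin v) (z : Fin n → α) (s : Fin v × Fin d → α) :
    Sum.elim z s ∘ blk2 n d v w w' =
      Fin.append (Fin.append z (fun j => s (w, j))) (fun j => s (w', j)) := by
  rw [blk2, comp_append, comp_blk]; rfl

/-- The pattern of a copy of the graph `H`, in terms of types. -/
def Pat (D : Dat F n d r) {v : ℕ} (H : SimpleGraph (Fin v)) (i : Fin v → Fin r)
    (τ : F.T (Fin n ⊕ (Fin v × Fin d))) : Prop :=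
  (∀ w, F.map (blk n d v w) τ ∈ D.1 (i w)) ∧ ∀ w w',
    (F.map (blk2 n d v w w') τ ∈ D.2.1 (i w) (i w') → w = w') ∧
      (F.map (blk2 n d v w w') τ ∈ D.2.2 (i w) (i w') ↔ H.Adj w w')

theorem pat_iff (D : Dat F n d r) {v : ℕ} (H : SimpleGraph (Fin v)) (i : Fin v → Fin r)
    {x : X} (z : Fin n → M x) (s : Fin v × Fin d → M x) :
    D.Pat H i (F.tp (Sum.elim z s)) ↔ (D.pre z).Copy H (fun w => (i w, fun j => s (w, j))) := by
  unfold Pat Pre.Copy
  simp only [← F.tp_comp, comp_blk, comp_blk2]
  rfl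

end Dat

/-- Sums of quotients over the extensions are quotients. -/
theorem sum_rat {C : Set X} {n : ℕ} {κ : Type} [Fintype κ] [DecidableEq κ]
    (G : F.T (Fin n ⊕ κ) → X → ℚ) (hG : ∀ τ, RatOn ev C (G τ)) (α : F.T (Fin n)) :
    ∃ f : X → ℚ, RatOn ev C f ∧ ∀ x ∈ C, ∀ z : Fin n → M x, F.tp z = α →
      ∑ s : κ → M x, G (F.tp (Sum.elim z s)) x = f x := by
  have hf : Finite (F.T (Fin n ⊕ κ)) := F.fin _
  obtain ⟨a, s0, h0⟩ := RatOn.common G hG
  obtain ⟨h', hh⟩ := F.sum_ext κ inferInstance inferInstance (Fin n) a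
  refine ⟨fun x => ev x (h' α) / ev x s0, ⟨h' α, s0, fun x hx => ⟨(h0 x hx).1, rfl⟩⟩, ?_⟩
  intro x hx z hz
  show _ = ev x (h' α) / ev x s0
  rw [← hz, ← hh x z, Finset.sum_div]
  exact Finset.sum_congr rfl fun s _ => (h0 x hx).2 _

/-- On a class of similar parameter values, the number of embeddings of `H` is a quotient of ring
elements. -/
theorem card_rat {k n d r : ℕ} (D : Dat F n d r) (hk : n + d + d + d ≤ k) {C : Set X}
    (hC : ∀ x ∈ C, ∀ x' ∈ C, F.Sim k x x') (α : F.T (Fin n))
    (hadm : ∀ x ∈ C, ∀ z : Fin n → M x, F.tp z = α → (D.pre z).Adm) {v : ℕ}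
    (H : SimpleGraph (Fin v)) :
    ∃ f : X → ℚ, RatOn ev C f ∧ ∀ x ∈ C, ∀ (z : Fin n → M x), F.tp z = α →
      ∀ h : (D.pre z).Adm, (Nat.card (H ↪g h.graph) : ℚ) = f x := by
  classical
  obtain ⟨c, hc⟩ := D.cls_eq
  let Good (i : Fin r) (σ : F.T (Fin (n + d))) : Prop := ∀ x ∈ C, ev x (c i σ) ≠ 0
  let G (i : Fin v → Fin r) (τ : F.T (Fin n ⊕ (Fin v × Fin d))) (x : X) : ℚ :=
    if D.Pat H i τ ∧ ∀ w, Good (i w) (F.map (Dat.blk n d v w) τ) then
      ∏ w, (ev x (c (i w) (F.map (Dat.blk n d v w) τ)))⁻¹ else 0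
  have hG : ∀ i τ, RatOn ev C (G i τ) := by
    intro i τ
    by_cases hg : D.Pat H i τ ∧ ∀ w, Good (i w) (F.map (Dat.blk n d v w) τ)
    · refine (RatOn.prod (ev := ev) (C := C) univ
        (fun w x => (ev x (c (i w) (F.map (Dat.blk n d v w) τ)))⁻¹) fun w _ => ?_).congr ?_
      · exact RatOn.inv (RatOn.of_ev _) (hg.2 w)
      · intro x _
        exact if_pos hg
    · exact RatOn.zero.congr fun x _ => if_neg hg
  choose f hf hf2 using fun i => sum_rat F (G i) (hG i) α
  refine ⟨fun x => ∑ i, f i x, RatOn.sum _ _ fun i _ => hf i, fun x hx z hz h => ?_⟩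
  rw [Pre.card_embeddings h H]
  show _ = ∑ i, f i x
  rw [Finset.sum_congr rfl fun i _ => (hf2 i x hx z hz).symm]
  rw [← Fintype.sum_prod_type' (f := fun i s => G i (F.tp (Sum.elim z s)) x)]
  symm
  refine Fintype.sum_equiv
    { toFun := fun p w => (p.1 w, fun j => p.2 (w, j))
      invFun := fun u => (fun w => (u w).1, fun q => (u q.1).2 q.2)
      left_inv := fun p => rfl
      right_inv := fun u => rfl } _ _ fun p => ?_
  obtain ⟨i, s⟩ := p
  show G i (F.tp (Sum.elim z s)) x = if (D.pre z).Copy H (fun w => (i w, fun j => s (w, j))) then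
    ∏ w, ((D.pre z).cls (i w, fun j => s (w, j)))⁻¹ else 0
  have hcls : ∀ w, (D.pre z).cls (i w, fun j => s (w, j)) =
      ev x (c (i w) (F.map (Dat.blk n d v w) (F.tp (Sum.elim z s)))) := by
    intro w
    rw [hc, ← F.tp_comp, Dat.comp_blk]
  by_cases hp : D.Pat H i (F.tp (Sum.elim z s))
  · rw [if_pos ((D.pat_iff H i z s).1 hp)]
    have hgood : ∀ w, Good (i w) (F.map (Dat.blk n d v w) (F.tp (Sum.elim z s))) := by
      intro w x' hx'
      have hdom := hp.1 w
      rw [← F.tp_comp, Dat.comp_blk] at hdom ⊢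
      have hs := hC x hx x' hx'
      obtain ⟨z', hz'⟩ := (hs n (by omega) _).1 ⟨z, rfl⟩
      obtain ⟨t', ht'⟩ := hs.extend (by omega) hz'.symm (fun j => s (w, j))
      have h1 := Pre.cls_pos (hadm x' hx' z' (hz'.trans hz)) (u := (i w, t'))
        (by show F.tp (Fin.append z' t') ∈ D.1 (i w); rw [← ht']; exact hdom)
      rw [hc] at h1
      rw [ht']
      exact h1.ne'
    show (if _ then _ else _) = _
    rw [if_pos ⟨hp, hgood⟩]
    exact Finset.prod_congr rfl fun w _ => by rw [hcls]
  · rw [if_neg fun h => hp ((D.pat_iff H i z s).2 h)]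
    exact if_neg fun h => hp h.1

/-- On a class of similar parameter values, isomorphism is equivalent to the vanishing of finitely
many ring elements. -/
theorem iso_zeros [IsNoetherianRing A] {k n d r d' r' : ℕ} (D : Dat F n d r)
    (D' : Dat F n d' r') (hk : n + d + d + d ≤ k) (hk' : n + d' + d' + d' ≤ k) {C : Set X}
    (hC : ∀ x ∈ C, ∀ x' ∈ C, F.Sim k x x') (α : F.T (Fin n)) :
    ∃ Q : Finset A, ∀ x ∈ C, ∀ z : Fin n → M x, F.tp z = α →
      ((D.pre z).Iso (D'.pre z) ↔ ∀ q ∈ Q, ev x q = 0) := by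
  classical
  by_cases h0 : ∃ x ∈ C, ∃ z : Fin n → M x, F.tp z = α ∧ (D.pre z).Adm ∧ (D'.pre z).Adm
  · obtain ⟨x0, hx0, z0, hz0, ha, ha'⟩ := h0
    have hadm : ∀ x ∈ C, ∀ z : Fin n → M x, F.tp z = α → (D.pre z).Adm :=
      fun x hx z hz => D.adm_of_sim hk (hC x0 hx0 x hx) (hz0.trans hz.symm) ha
    have hadm' : ∀ x ∈ C, ∀ z : Fin n → M x, F.tp z = α → (D'.pre z).Adm :=
      fun x hx z hz => D'.adm_of_sim hk' (hC x0 hx0 x hx) (hz0.trans hz.symm) ha'
    have key : ∀ p : Σ v : ℕ, SimpleGraph (Fin v), ∃ a : A, ∀ x ∈ C, ∀ z : Fin n → M x,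
        F.tp z = α → ∀ (h : (D.pre z).Adm) (h' : (D'.pre z).Adm),
        (Nat.card (p.2 ↪g h.graph) = Nat.card (p.2 ↪g h'.graph) ↔ ev x a = 0) := by
      intro p
      obtain ⟨f, hf, hf2⟩ := card_rat F D hk hC α hadm p.2
      obtain ⟨g, hg, hg2⟩ := card_rat F D' hk' hC α hadm' p.2
      obtain ⟨a, ha⟩ := hf.eqs hg
      refine ⟨a, fun x hx z hz h h' => ?_⟩
      rw [← ha x hx, ← hf2 x hx z hz h, ← hg2 x hx z hz h']
      norm_cast
    choose q hq using key
    obtain ⟨Q, hQ1, hQ2⟩ := finite_zeros (ev := ev) q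
    refine ⟨Q, fun x hx z hz => ?_⟩
    constructor
    · rintro ⟨h, h', ⟨e⟩⟩ a haQ
      obtain ⟨p, rfl⟩ := hQ1 a haQ
      rw [← hq p x hx z hz h h']
      exact Nat.card_congr ⟨fun f => e.toEmbedding.comp f, fun f => e.symm.toEmbedding.comp f,
        fun f => by ext; simp, fun f => by ext; simp⟩
    · intro hall
      have h := hadm x hx z hz
      have h' := hadm' x hx z hz
      refine ⟨h, h', iso_of_embeddings _ _ fun v H => ?_⟩
      exact (hq ⟨v, H⟩ x hx z hz h h').2 (hQ2 x hall ⟨v, H⟩)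
  · refine ⟨{1}, fun x hx z hz => ?_⟩
    constructor
    · rintro ⟨h, h', -⟩
      exact absurd ⟨x, hx, z, hz, h, h'⟩ h0
    · intro hall
      have := hall 1 (mem_singleton_self _)
      rw [map_one] at this
      exact absurd this one_ne_zero

end

end Pool.Agent.N585.GI
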