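import Pool.Agent.N585.GI.Emb

/-!
# Quantifier-free interpretations in linear orders
-/

set_option autoImplicit false

namespace Pool.Agent.N585.GI

open Finset

/-- The order type of a tuple of elements of a linear order: the relation `t a < t b`. (Each
quantifier-free formula with the relations `<` and `=` defines a set of order types.) -/
def otp {κ : Type} {n : ℕ} (t : κ → Fin n) : κ → κ → Prop := fun a b => t a < t b

/-- The graph that is defined by quantifier-free formulas in the linear order of length `n`: its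
vertices are the pairs of an `i : Fin r` and a `d`-tuple with order type in `Δ i`; they are adjacent
if the order type of the `2 d`-tuple, in one of the two orders, belongs to `Η`. -/
def ordGraph {r d : ℕ} (Δ : Fin r → Set (Fin d → Fin d → Prop))
    (Η : Fin r → Fin r → Set (Fin d ⊕ Fin d → Fin d ⊕ Fin d → Prop)) (n : ℕ) :
    SimpleGraph {u : Fin r × (Fin d → Fin n) // otp u.2 ∈ Δ u.1} :=
  SimpleGraph.fromRel fun u w => otp (Sum.elim u.1.2 w.1.2) ∈ Η u.1.1 w.1.1

theorem ordGraph_adj {r d : ℕ} (Δ : Fin r → Set (Fin d → Fin d → Prop))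
    (Η : Fin r → Fin r → Set (Fin d ⊕ Fin d → Fin d ⊕ Fin d → Prop)) (n : ℕ)
    (u w : {u : Fin r × (Fin d → Fin n) // otp u.2 ∈ Δ u.1}) :
    (ordGraph Δ Η n).Adj u w ↔ u ≠ w ∧ (otp (Sum.elim u.1.2 w.1.2) ∈ Η u.1.1 w.1.1 ∨
      otp (Sum.elim w.1.2 u.1.2) ∈ Η w.1.1 u.1.1) := Iff.rfl

theorem card_emb_congr {V V' W : Type} {G : SimpleGraph V} {G' : SimpleGraph V'}
    (e : G ≃g G') (H : SimpleGraph W) : Nat.card (H ↪g G) = Nat.card (H ↪g G') :=
  Nat.card_congr ⟨fun f => e.toEmbedding.comp f, fun f => e.symm.toEmbedding.comp f,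
    fun f => by ext; simp, fun f => by ext; simp⟩

section count

variable {κ : Type} [Fintype κ]

theorem otp_comp_iff {n n0 : ℕ} (s0 : κ → Fin n0) (s : κ → Fin n) :
    otp s = otp s0 ↔ ∀ a b, s a < s b ↔ s0 a < s0 b := by
  constructor
  · intro h a b
    exact iff_of_eq (congrFun (congrFun h a) b)
  · intro h
    funext a b
    exact propext (h a b)

/-- The number of the tuples of a given order type is a binomial coefficient. -/
theorem card_otp {n n0 : ℕ} (s0 : κ → Fin n0) :
    Nat.card {s : κ → Fin n // otp s = otp s0} =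
      n.choose ((univ.image s0).card) := by
  classical
  set S0 := univ.image s0 with hS0
  have hmem : ∀ a, s0 a ∈ S0 := fun a => mem_image_of_mem _ (mem_univ a)
  let e0 := S0.orderIsoOfFin rfl
  have hpc : (powersetCard S0.card (univ : Finset (Fin n))).card = n.choose S0.card := by
    rw [card_powersetCard, card_univ, Fintype.card_fin]
  rw [← hpc, Nat.card_eq_fintype_card, Fintype.card_subtype]
  -- the image of a tuple determines the tuple
  have himg : ∀ s : κ → Fin n, otp s = otp s0 →
      (∀ a b, s a = s b ↔ s0 a = s0 b) := by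
    intro s hs a b
    have h := (otp_comp_iff s0 s).1 hs
    constructor
    · intro e
      exact le_antisymm (not_lt.1 fun hlt => absurd ((h b a).2 hlt) (by rw [e]; exact lt_irrefl _))
        (not_lt.1 fun hlt => absurd ((h a b).2 hlt) (by rw [e]; exact lt_irrefl _))
    · intro e
      exact le_antisymm (not_lt.1 fun hlt => absurd ((h b a).1 hlt) (by rw [e]; exact lt_irrefl _))
        (not_lt.1 fun hlt => absurd ((h a b).1 hlt) (by rw [e]; exact lt_irrefl _))
  have hcard : ∀ s : κ → Fin n, otp s = otp s0 → (univ.image s).card = S0.card := by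
    intro s hs
    have hex : ∀ y ∈ univ.image s, ∃ a, s a = y := fun y hy => by
      obtain ⟨a, -, ha⟩ := mem_image.1 hy
      exact ⟨a, ha⟩
    refine Finset.card_bij (fun y hy => s0 (hex y hy).choose) (fun y hy => hmem _) ?_ ?_
    · intro y hy y' hy' h
      rw [← himg s hs, (hex y hy).choose_spec, (hex y' hy').choose_spec] at h
      exact h
    · intro z hz
      obtain ⟨a, -, ha⟩ := mem_image.1 hz
      refine ⟨s a, mem_image_of_mem _ (mem_univ _), ?_⟩
      rw [← ha, ← himg s hs]
      exact (hex (s a) (mem_image_of_mem _ (mem_univ _))).choose_spec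
  refine Finset.card_bij' (fun s _ => univ.image s)
    (fun S hS a => S.orderEmbOfFin (mem_powersetCard.1 hS).2 (e0.symm ⟨s0 a, hmem a⟩))
    ?_ ?_ ?_ ?_
  · intro s hs
    exact mem_powersetCard.2 ⟨subset_univ _, hcard s (mem_filter.1 hs).2⟩
  · intro S hS
    rw [mem_filter]
    refine ⟨mem_univ _, (otp_comp_iff s0 _).2 fun a b => ?_⟩
    rw [OrderEmbedding.lt_iff_lt, OrderIso.lt_iff_lt]
    exact Iff.rfl
  · intro s hs
    have hs := (mem_filter.1 hs).2
    have hlt := (otp_comp_iff s0 s).1 hs
    -- the order embedding with the same image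
    let g : Fin S0.card → Fin n := fun i => s (mem_image.1 (e0 i).2).choose
    have hg : ∀ a, g (e0.symm ⟨s0 a, hmem a⟩) = s a := by
      intro a
      show s (mem_image.1 (e0 (e0.symm ⟨s0 a, hmem a⟩)).2).choose = s a
      have h1 := (mem_image.1 (e0 (e0.symm ⟨s0 a, hmem a⟩)).2).choose_spec.2
      rw [himg s hs]
      rw [h1, OrderIso.apply_symm_apply]
    have hmono : StrictMono g := by
      intro i j hij
      show s _ < s _
      rw [hlt, (mem_image.1 (e0 i).2).choose_spec.2, (mem_image.1 (e0 j).2).choose_spec.2]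
      exact e0.strictMono hij
    have huniq := Finset.orderEmbOfFin_unique (hcard s hs) (f := g) (fun i =>
      mem_image_of_mem _ (mem_univ _)) hmono
    funext a
    rw [← huniq, hg]
  · intro S hS
    ext y
    rw [mem_image]
    constructor
    · rintro ⟨a, -, rfl⟩
      exact Finset.orderEmbOfFin_mem _ _ _
    · intro hy
      have : y ∈ Set.range (S.orderEmbOfFin (mem_powersetCard.1 hS).2) := by
        rw [Finset.range_orderEmbOfFin]; exact hy
      obtain ⟨i, hi⟩ := this
      obtain ⟨a, -, ha⟩ := mem_image.1 (e0 i).2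
      refine ⟨a, mem_univ _, ?_⟩
      have : (⟨s0 a, hmem a⟩ : S0) = e0 i := Subtype.ext ha
      rw [this, OrderIso.symm_apply_apply, hi]

end count

/-- The function is given by a polynomial. -/
def IsPoly (f : ℕ → ℚ) : Prop := ∃ p : Polynomial ℚ, ∀ n : ℕ, f n = p.eval (n : ℚ)

theorem IsPoly.zero : IsPoly fun _ => 0 := ⟨0, by simp⟩

theorem IsPoly.sum {ι : Type*} (s : Finset ι) (f : ι → ℕ → ℚ) (h : ∀ i ∈ s, IsPoly (f i)) :
    IsPoly fun n => ∑ i ∈ s, f i n := by
  classical
  choose! p hp using h
  refine ⟨∑ i ∈ s, p i, fun n => ?_⟩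
  rw [Polynomial.eval_finset_sum]
  exact Finset.sum_congr rfl fun i hi => hp i hi n

theorem isPoly_choose (j : ℕ) : IsPoly fun n => (n.choose j : ℚ) := by
  refine ⟨Polynomial.C ((j.factorial : ℚ)⁻¹) * descPochhammer ℚ j, fun n => ?_⟩
  rw [Polynomial.eval_mul, Polynomial.eval_C, descPochhammer_eval_eq_descFactorial,
    Nat.descFactorial_eq_factorial_mul_choose]
  have : (j.factorial : ℚ) ≠ 0 := by exact_mod_cast j.factorial_ne_zero
  push_cast
  field_simp

/-- The number of the tuples with order type in a given set is a polynomial. -/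
theorem isPoly_card {κ : Type} [Finite κ] (Q : Set (κ → κ → Prop)) :
    IsPoly fun n => (Nat.card {s : κ → Fin n // otp s ∈ Q} : ℚ) := by
  classical
  have := Fintype.ofFinite κ
  have hfin : Fintype (κ → κ → Prop) := Fintype.ofFinite _
  have h1 : ∀ n : ℕ, (Nat.card {s : κ → Fin n // otp s ∈ Q} : ℚ) =
      ∑ τ ∈ univ.filter (fun τ => τ ∈ Q), (Nat.card {s : κ → Fin n // otp s = τ} : ℚ) := by
    intro n
    simp only [Nat.card_eq_fintype_card, Fintype.card_subtype]
    rw [← Nat.cast_sum]
    congr 1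
    rw [← Finset.card_biUnion]
    · congr 1
      ext s
      simp
    · intro τ _ τ' _ hne
      rw [Function.onFun, Finset.disjoint_left]
      intro s hs hs'
      exact hne ((mem_filter.1 hs).2.symm.trans (mem_filter.1 hs').2)
  have h2 : IsPoly fun n => ∑ τ ∈ univ.filter (fun τ => τ ∈ Q),
      (Nat.card {s : κ → Fin n // otp s = τ} : ℚ) := by
    refine IsPoly.sum _ _ fun τ _ => ?_
    by_cases h : ∃ (n0 : ℕ) (s0 : κ → Fin n0), otp s0 = τ
    · obtain ⟨n0, s0, rfl⟩ := h
      obtain ⟨p, hp⟩ := isPoly_choose (univ.image s0).card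
      refine ⟨p, fun n => ?_⟩
      show (Nat.card {s : κ → Fin n // otp s = otp s0} : ℚ) = _
      rw [card_otp]
      exact hp n
    · refine ⟨0, fun n => ?_⟩
      rw [Polynomial.eval_zero, Nat.cast_eq_zero]
      have : IsEmpty {s : κ → Fin n // otp s = τ} := ⟨fun s => h ⟨n, s.1, s.2⟩⟩
      exact Nat.card_of_isEmpty
  obtain ⟨p, hp⟩ := h2
  exact ⟨p, fun n => (h1 n).trans (hp n)⟩

section main

variable {r d : ℕ} (Δ : Fin r → Set (Fin d → Fin d → Prop))
  (Η : Fin r → Fin r → Set (Fin d ⊕ Fin d → Fin d ⊕ Fin d → Prop))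

/-- The number of embeddings of a graph into `ordGraph` is a polynomial. -/
theorem isPoly_emb {v : ℕ} (H : SimpleGraph (Fin v)) :
    IsPoly fun n => (Nat.card (H ↪g ordGraph Δ Η n) : ℚ) := by
  classical
  -- the set of order types of copies of `H` with given sorts
  let Q (i : Fin v → Fin r) : Set (Fin v × Fin d → Fin v × Fin d → Prop) :=
    {τ | (∀ w, (fun a b => τ (w, a) (w, b)) ∈ Δ (i w)) ∧
      (∀ w w', i w = i w' → (∀ a, ¬ τ (w, a) (w', a) ∧ ¬ τ (w', a) (w, a)) → w = w') ∧
      ∀ w w', w ≠ w' → (((fun a b => τ (Sum.elim (fun a => (w, a)) (fun a => (w', a)) a)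
        (Sum.elim (fun a => (w, a)) (fun a => (w', a)) b)) ∈ Η (i w) (i w') ∨
        (fun a b => τ (Sum.elim (fun a => (w', a)) (fun a => (w, a)) a)
        (Sum.elim (fun a => (w', a)) (fun a => (w, a)) b)) ∈ Η (i w') (i w)) ↔ H.Adj w w')}
  have h1 : ∀ n : ℕ, (Nat.card (H ↪g ordGraph Δ Η n) : ℚ) =
      ∑ i : Fin v → Fin r, (Nat.card {s : Fin v × Fin d → Fin n // otp s ∈ Q i} : ℚ) := by
    intro n
    rw [← Nat.cast_sum, ← Nat.card_sigma]
    congr 1
    have hot : ∀ (s : Fin v × Fin d → Fin n) (w w' : Fin v),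
        (fun a b => otp s (Sum.elim (fun a => (w, a)) (fun a => (w', a)) a)
          (Sum.elim (fun a => (w, a)) (fun a => (w', a)) b)) =
        otp (Sum.elim (fun a => s (w, a)) (fun a => s (w', a))) := by
      intro s w w'
      funext a b
      rcases a with a | a <;> rcases b with b | b <;> rfl
    refine Nat.card_congr
      { toFun := fun φ => ⟨fun w => (φ w).1.1, fun q => (φ q.1).1.2 q.2, ?_⟩
        invFun := fun p => ⟨⟨fun w => ⟨(p.1 w, fun a => p.2.1 (w, a)), ?_⟩, ?_⟩, ?_⟩
        left_inv := fun φ => ?_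
        right_inv := fun p => ?_ }
    · refine ⟨fun w => (φ w).2, fun w w' hi hlt => ?_, fun w w' hne => ?_⟩
      · apply φ.injective
        apply Subtype.ext
        refine Prod.ext hi ?_
        funext a
        exact le_antisymm (not_lt.1 (hlt a).2) (not_lt.1 (hlt a).1)
      · rw [hot, hot, ← φ.map_adj_iff, ordGraph_adj]
        exact ⟨fun h => ⟨φ.injective.ne hne, h⟩, fun h => h.2⟩
    · exact p.2.2.1 w
    · intro w w' h
      have h' := congrArg Subtype.val h
      refine p.2.2.2.1 w w' (congrArg Prod.fst h') fun a => ?_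
      have : p.2.1 (w, a) = p.2.1 (w', a) := congrFun (congrArg Prod.snd h') a
      constructor
      · show ¬ (p.2.1 (w, a) < p.2.1 (w', a))
        rw [this]; exact lt_irrefl _
      · show ¬ (p.2.1 (w', a) < p.2.1 (w, a))
        rw [this]; exact lt_irrefl _
    · intro w w'
      rw [ordGraph_adj]
      by_cases hne : w = w'
      · subst hne
        simp
      · have := p.2.2.2.2 w w' hne
        rw [hot, hot] at this
        constructor
        · intro h
          exact this.1 h.2
        · intro h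
          refine ⟨fun e => hne ?_, this.2 h⟩
          have h' := congrArg Subtype.val e
          refine p.2.2.2.1 w w' (congrArg Prod.fst h') fun a => ?_
          have e2 : p.2.1 (w, a) = p.2.1 (w', a) := congrFun (congrArg Prod.snd h') a
          constructor
          · show ¬ (p.2.1 (w, a) < p.2.1 (w', a))
            rw [e2]; exact lt_irrefl _
          · show ¬ (p.2.1 (w', a) < p.2.1 (w, a))
            rw [e2]; exact lt_irrefl _
    · rfl
    · rfl
  obtain ⟨p, hp⟩ := IsPoly.sum univ (fun (i : Fin v → Fin r) n =>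
    (Nat.card {s : Fin v × Fin d → Fin n // otp s ∈ Q i} : ℚ)) fun i _ => isPoly_card (Q i)
  exact ⟨p, fun n => (h1 n).trans (hp n)⟩

end main

/-- **Quantifier-free interpretations in linear orders.** If two graphs are defined by
quantifier-free formulas in linear orders and are isomorphic for infinitely many orders, then they
are isomorphic for all finite orders. -/
theorem ord_main {r d r' d' : ℕ} (Δ : Fin r → Set (Fin d → Fin d → Prop))
    (Η : Fin r → Fin r → Set (Fin d ⊕ Fin d → Fin d ⊕ Fin d → Prop))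
    (Δ' : Fin r' → Set (Fin d' → Fin d' → Prop))
    (Η' : Fin r' → Fin r' → Set (Fin d' ⊕ Fin d' → Fin d' ⊕ Fin d' → Prop))
    (h : {n : ℕ | Nonempty (ordGraph Δ Η n ≃g ordGraph Δ' Η' n)}.Infinite) (n : ℕ) :
    Nonempty (ordGraph Δ Η n ≃g ordGraph Δ' Η' n) := by
  refine iso_of_embeddings _ _ fun v H => ?_
  obtain ⟨p, hp⟩ := isPoly_emb Δ Η H
  obtain ⟨q, hq⟩ := isPoly_emb Δ' Η' H
  have hpq : p = q := by
    refine Polynomial.eq_of_infinite_eval_eq p q ?_
    refine (h.image (Nat.cast_injective (R := ℚ)).injOn).mono ?_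
    rintro _ ⟨m, ⟨e⟩, rfl⟩
    show p.eval (m : ℚ) = q.eval (m : ℚ)
    rw [← hp, ← hq]
    show (Nat.card (H ↪g ordGraph Δ Η m) : ℚ) = Nat.card (H ↪g ordGraph Δ' Η' m)
    rw [card_emb_congr e H]
  have : (Nat.card (H ↪g ordGraph Δ Η n) : ℚ) = Nat.card (H ↪g ordGraph Δ' Η' n) :=
    (hp n).trans ((congrArg (Polynomial.eval (n : ℚ)) hpq).trans (hq n).symm)
  exact_mod_cast this

end Pool.Agent.N585.GI
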