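import Pool.Agent.N585.GI.Unif

/-!
# Coloured sets
-/

set_option autoImplicit false

namespace Pool.Agent.N585.GI

open Finset

/-- The set with `x i` elements of colour `i`, for all `i : Fin c`. -/
abbrev CSet {c : ℕ} (x : Fin c → ℕ) : Type := Σ i : Fin c, Fin (x i)

/-- The vocabulary with `c` unary relation symbols. -/
inductive Col (c : ℕ) : ℕ → Type
  | mk (i : Fin c) : Col c 1

/-- The coloured set as a structure: the `i`-th unary relation consists of the elements of
colour `i`. -/
def colStr {c : ℕ} (x : Fin c → ℕ) : Str (Col c) (CSet x)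
  | _, .mk i, t => (t 0).1 = i

namespace CSetFam

variable {c : ℕ}

/-- Types of tuples in coloured sets. -/
abbrev T (c : ℕ) (ι : Type) : Type := (ι → Fin c) × (ι → ι → Prop)

/-- The type of a tuple extended by a new element of colour `j`. -/
def new {ι : Type} (j : Fin c) (τ : T c ι) : T c (Option ι) :=
  (Option.elim' j τ.1, fun a b =>
    match a, b with
    | none, none => True
    | some a, some b => τ.2 a b
    | none, some _ => False
    | some _, none => False)

/-- A representative of the class of `i`. -/
noncomputable def rep {ι : Type} (τ : T c ι) (i : ι) : ι := @Classical.epsilon ι ⟨i⟩ (τ.2 i)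

/-- The evaluation of integer polynomials at `x`. -/
noncomputable def ev (c : ℕ) (x : Fin c → ℕ) : MvPolynomial (Fin c) ℤ →+* ℚ :=
  MvPolynomial.eval₂Hom (Int.castRingHom ℚ) (fun i => (x i : ℚ))

theorem ev_X (x : Fin c → ℕ) (i : Fin c) : ev c x (MvPolynomial.X i) = x i := by
  simp [ev]

/-- The type of a tuple. -/
def tp {x : Fin c → ℕ} {ι : Type} (t : ι → CSet x) : T c ι :=
  (fun i => (t i).1, fun i j => t i = t j)

theorem rep_spec {x : Fin c → ℕ} {ι : Type} (t : ι → CSet x) (i : ι) :
    t i = t (rep (tp t) i) :=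
  @Classical.epsilon_spec_aux ι ⟨i⟩ ((tp t).2 i) ⟨i, rfl⟩

theorem rep_congr {x : Fin c → ℕ} {ι : Type} (t : ι → CSet x) {i j : ι} (h : t i = t j) :
    rep (tp t) i = rep (tp t) j := by
  have : (tp t).2 i = (tp t).2 j := by
    funext l
    show (t i = t l) = (t j = t l)
    rw [h]
  unfold rep
  rw [this]

theorem rep_rep {x : Fin c → ℕ} {ι : Type} (t : ι → CSet x) (i : ι) :
    rep (tp t) (rep (tp t) i) = rep (tp t) i :=
  rep_congr t (rep_spec t i).symm

end CSetFam

open CSetFam in
/-- The family of coloured sets. -/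
noncomputable def csetFam (c : ℕ) : Fam (CSetFam.ev c) (fun x : Fin c → ℕ => CSet x) where
  T := CSetFam.T c
  fin ι _ := inferInstance
  map f τ := (τ.1 ∘ f, fun a b => τ.2 (f a) (f b))
  tp t := CSetFam.tp t
  tp_comp t f := rfl
  tp_empty t t' := by
    refine Prod.ext ?_ ?_
    · funext i; exact isEmptyElim i
    · funext i; exact isEmptyElim i
  sum_one ι _ h := by
    classical
    have := Fintype.ofFinite ι
    let S (τ : CSetFam.T c ι) : Finset ι := univ.filter fun i => rep τ i = i
    refine ⟨fun τ => ∑ i ∈ S τ, h (τ.1 ∘ Option.elim' i id, fun a b =>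
        τ.2 (Option.elim' i id a) (Option.elim' i id b)) +
      (∑ j, MvPolynomial.X j * h (new j τ) - ∑ i ∈ S τ, h (new (τ.1 i) τ)), fun x t => ?_⟩
    -- the injectivity on the representatives
    have hinj : Set.InjOn t (S (tp t) : Set ι) := by
      intro i hi j hj hij
      have h1 : rep (tp t) i = i := (mem_filter.1 hi).2
      have h2 : rep (tp t) j = j := (mem_filter.1 hj).2
      rw [← h1, ← h2]
      exact rep_congr t hij
    have hrange : ∀ b, b ∈ (S (tp t)).image t ↔ b ∈ Set.range t := by
      intro b
      rw [mem_image]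
      constructor
      · rintro ⟨i, _, rfl⟩
        exact ⟨i, rfl⟩
      · rintro ⟨i, rfl⟩
        exact ⟨rep (tp t) i, mem_filter.2 ⟨mem_univ _, rep_rep t i⟩, (rep_spec t i).symm⟩
    have hG1 : ∀ i : ι, CSetFam.tp (Option.elim' (t i) t) =
        ((tp t).1 ∘ Option.elim' i id, fun a b =>
          (tp t).2 (Option.elim' i id a) (Option.elim' i id b)) := by
      intro i
      have : Option.elim' (t i) t = t ∘ Option.elim' i id := by
        funext a; rcases a with _ | a <;> rfl
      rw [this]
      rfl
    have hG2 : ∀ b ∉ (S (tp t)).image t, CSetFam.tp (Option.elim' b t) = new b.1 (tp t) := by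
      intro b hb
      rw [hrange] at hb
      refine Prod.ext ?_ ?_
      · funext a; rcases a with _ | a <;> rfl
      · funext a a'
        rcases a with _ | a <;> rcases a' with _ | a'
        · simp [new, CSetFam.tp]
        · simp only [new, CSetFam.tp, Option.elim'_none, Option.elim'_some, eq_iff_iff,
            iff_false]
          exact fun e => hb ⟨a', e.symm⟩
        · simp only [new, CSetFam.tp, Option.elim'_none, Option.elim'_some, eq_iff_iff,
            iff_false]
          exact fun e => hb ⟨a, e⟩
        · simp [new, CSetFam.tp]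
    have e1 : ∑ b : CSet x, CSetFam.ev c x (h (CSetFam.tp (Option.elim' b t))) =
        ∑ b ∈ (S (tp t)).image t, CSetFam.ev c x (h (CSetFam.tp (Option.elim' b t))) +
        (∑ b : CSet x, CSetFam.ev c x (h (new b.1 (tp t))) -
          ∑ b ∈ (S (tp t)).image t, CSetFam.ev c x (h (new b.1 (tp t)))) := by
      rw [← Finset.sum_sdiff (Finset.subset_univ ((S (tp t)).image t))
        (f := fun b => CSetFam.ev c x (h (CSetFam.tp (Option.elim' b t)))),
        ← Finset.sum_sdiff (Finset.subset_univ ((S (tp t)).image t))
        (f := fun b : CSet x => CSetFam.ev c x (h (new b.1 (tp t))))]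
      have : ∑ b ∈ (univ : Finset (CSet x)) \ (S (tp t)).image t, CSetFam.ev c x (h (CSetFam.tp (Option.elim' b t))) =
          ∑ b ∈ (univ : Finset (CSet x)) \ (S (tp t)).image t, CSetFam.ev c x (h (new b.1 (tp t))) :=
        Finset.sum_congr rfl fun b hb => by rw [hG2 b (mem_sdiff.1 hb).2]
      rw [this]
      ring
    show ∑ b, CSetFam.ev c x (h (CSetFam.tp (Option.elim' b t))) = _
    rw [e1, map_add, map_sub, map_sum, map_sum, map_sum, Finset.sum_image hinj,
      Finset.sum_image hinj, Fintype.sum_sigma]
    have e2 : ∀ j : Fin c, ∑ a : Fin (x j), CSetFam.ev c x (h (new (⟨j, a⟩ : CSet x).1 (tp t))) =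
        CSetFam.ev c x (MvPolynomial.X j * h (new j (tp t))) := by
      intro j
      rw [map_mul, ev_X]
      simp
    rw [Finset.sum_congr rfl fun j _ => e2 j]
    congr 1
    exact Finset.sum_congr rfl fun i _ => by rw [hG1 i]

theorem csetFam_eqInv (c : ℕ) : (csetFam c).EqInv := by
  intro m x x' t t' h i j
  have : (CSetFam.tp t).2 i j = (CSetFam.tp t').2 i j := by
    have h1 : CSetFam.tp t = CSetFam.tp t' := h
    rw [h1]
  exact iff_of_eq this

theorem csetFam_inv (c : ℕ) : (csetFam c).Inv (fun x => colStr x) := by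
  intro m R x x' t t' h
  cases R with
  | mk i =>
    have h1 : (CSetFam.tp t).1 0 = (CSetFam.tp t').1 0 := by
      have h1 : CSetFam.tp t = CSetFam.tp t' := h
      rw [h1]
    show (t 0).1 = i ↔ (t' 0).1 = i
    rw [show (t 0).1 = (t' 0).1 from h1]

end Pool.Agent.N585.GI
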