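import Pool.Agent.N585.GI.Main

/-!
# Uniformity of the truth values
-/

set_option autoImplicit false

namespace Pool.Agent.N585.GI

open Finset

/-- The relation is implied by the equality of the zero patterns of finitely many ring elements. -/
def FinDet {X A : Type} [CommRing A] (ev : X → A →+* ℚ) (R : X → X → Prop) : Prop :=
  ∃ P : Finset A, ∀ x x', (∀ p ∈ P, ev x p = 0 ↔ ev x' p = 0) → R x x'

section

variable {X A : Type} [CommRing A] {ev : X → A →+* ℚ}

theorem FinDet.mono {R S : X → X → Prop} (h : FinDet ev R) (hs : ∀ x x', R x x' → S x x') :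
    FinDet ev S := by
  obtain ⟨P, hP⟩ := h
  exact ⟨P, fun x x' h => hs x x' (hP x x' h)⟩

theorem FinDet.all {ι : Type*} [Finite ι] {R : ι → X → X → Prop} (h : ∀ i, FinDet ev (R i)) :
    FinDet ev (fun x x' => ∀ i, R i x x') := by
  classical
  have := Fintype.ofFinite ι
  choose P hP using h
  exact ⟨univ.biUnion P, fun x x' h i => hP i x x' fun p hp =>
    h p (mem_biUnion.2 ⟨i, mem_univ _, hp⟩)⟩

theorem FinDet.allFin {R : ℕ → X → X → Prop} (k : ℕ) (h : ∀ n ≤ k, FinDet ev (R n)) :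
    FinDet ev (fun x x' => ∀ n ≤ k, R n x x') := by
  refine (FinDet.all (ι := Fin (k + 1)) (R := fun n => R n)
    fun n => h n (Nat.lt_succ_iff.1 n.2)).mono ?_
  intro x x' h n hn
  exact h ⟨n, Nat.lt_succ_iff.2 hn⟩

theorem FinDet.and {R S : X → X → Prop} (h : FinDet ev R) (h' : FinDet ev S) :
    FinDet ev (fun x x' => R x x' ∧ S x x') := by
  classical
  obtain ⟨P, hP⟩ := h
  obtain ⟨Q, hQ⟩ := h'
  exact ⟨P ∪ Q, fun x x' h => ⟨hP x x' fun p hp => h p (mem_union_left _ hp),
    hQ x x' fun p hp => h p (mem_union_right _ hp)⟩⟩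

variable {M : X → Type} [∀ x, Fintype (M x)] (F : Fam ev M)

theorem Fam.finDet_sim (k : ℕ) : FinDet ev (F.Sim k) := by
  classical
  unfold Fam.Sim
  apply FinDet.allFin
  intro N _
  have : Finite (F.T (Fin N)) := F.fin _
  apply FinDet.all
  intro τ
  rcases isEmpty_or_nonempty X with hX | ⟨⟨x0⟩⟩
  · exact ⟨∅, fun x => (hX.false x).elim⟩
  obtain ⟨h', hh⟩ := F.sum_ext (Fin N) inferInstance inferInstance PEmpty.{1}
    (fun σ => if F.map Sum.inr σ = τ then 1 else 0)
  let e0 : PEmpty.{1} → M x0 := PEmpty.elim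
  have key : ∀ x, (∃ t : Fin N → M x, F.tp t = τ) ↔ ev x (h' (F.tp e0)) ≠ 0 := by
    intro x
    have h1 := hh x (PEmpty.elim : PEmpty.{1} → M x)
    rw [F.tp_empty (PEmpty.elim : PEmpty.{1} → M x) e0] at h1
    have h2 : ∀ s : Fin N → M x,
        ev x (if F.map Sum.inr (F.tp (Sum.elim (PEmpty.elim : PEmpty.{1} → M x) s)) = τ then
          1 else 0) = if F.tp s = τ then 1 else 0 := by
      intro s
      rw [← F.tp_comp, Sum.elim_comp_inr]
      split_ifs <;> simp
    rw [Finset.sum_congr rfl fun s _ => h2 s, Finset.sum_boole] at h1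
    rw [← h1, Nat.cast_ne_zero, ← Nat.pos_iff_ne_zero, Finset.card_pos]
    constructor
    · rintro ⟨t, ht⟩
      exact ⟨t, by simpa using ht⟩
    · rintro ⟨t, ht⟩
      exact ⟨t, by simpa using ht⟩
  refine ⟨{h' (F.tp e0)}, fun x x' h => ?_⟩
  show (∃ t : Fin N → M x, F.tp t = τ) ↔ ∃ t : Fin N → M x', F.tp t = τ
  rw [key, key]
  exact not_congr (h _ (mem_singleton_self _))

/-- The truth of isomorphism statements is determined by finitely many zero conditions. -/
theorem finDet_iso [IsNoetherianRing A] {k n d r d' r' : ℕ} (D : Dat F n d r)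
    (D' : Dat F n d' r') (hk : n + d + d + d ≤ k) (hk' : n + d' + d' + d' ≤ k)
    (α : F.T (Fin n)) :
    FinDet ev (fun x x' => ∀ (z : Fin n → M x) (z' : Fin n → M x'), F.tp z = α → F.tp z' = α →
      ((D.pre z).Iso (D'.pre z) ↔ (D.pre z').Iso (D'.pre z'))) := by
  classical
  obtain ⟨P0, hP0⟩ := F.finDet_sim k
  have key : ∀ S : Finset A, ∃ Q : Finset A, ∀ x ∈ {x | ∀ p ∈ P0, ev x p = 0 ↔ p ∈ S},
      ∀ z : Fin n → M x, F.tp z = α → ((D.pre z).Iso (D'.pre z) ↔ ∀ q ∈ Q, ev x q = 0) := by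
    intro S
    refine iso_zeros F D D' hk hk' (fun x hx x' hx' => hP0 x x' fun p hp => ?_) α
    exact (hx p hp).trans (hx' p hp).symm
  choose Q hQ using key
  refine ⟨P0 ∪ P0.powerset.biUnion Q, fun x x' h z z' hz hz' => ?_⟩
  let S := P0.filter (fun p => ev x p = 0)
  have hx : x ∈ {x | ∀ p ∈ P0, ev x p = 0 ↔ p ∈ S} := by
    intro p hp
    simp [S, hp]
  have hx' : x' ∈ {x | ∀ p ∈ P0, ev x p = 0 ↔ p ∈ S} := by
    intro p hp
    rw [← h p (mem_union_left _ hp)]
    simp [S, hp]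
  rw [hQ S x hx z hz, hQ S x' hx' z' hz']
  refine forall₂_congr fun q hq => h q (mem_union_right _ (mem_biUnion.2 ⟨S, ?_, hq⟩))
  exact mem_powerset.2 (filter_subset _ _)

/-- The parameter values `x` and `x'` are not distinguished by `k` variables. -/
def Fam.Eqv (k : ℕ) (x x' : X) : Prop :=
  F.Sim k x x' ∧ ∀ n ≤ k, ∀ d ≤ k, ∀ r ≤ k, ∀ d' ≤ k, ∀ r' ≤ k,
    ∀ (D : Dat F n d r) (D' : Dat F n d' r'), n + d + d + d ≤ k → n + d' + d' + d' ≤ k →
      ∀ (z : Fin n → M x) (z' : Fin n → M x'), F.tp z = F.tp z' →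
        ((D.pre z).Iso (D'.pre z) ↔ (D.pre z').Iso (D'.pre z'))

theorem finite_dat (n d r : ℕ) : Finite (Dat F n d r) := by
  have h1 : Finite (F.T (Fin (n + d))) := F.fin _
  have h2 : Finite (F.T (Fin (n + d + d))) := F.fin _
  infer_instance

theorem Fam.finDet_eqv [IsNoetherianRing A] (k : ℕ) : FinDet ev (F.Eqv k) := by
  apply FinDet.and (F.finDet_sim k)
  refine FinDet.allFin k fun n _ => FinDet.allFin k fun d _ => FinDet.allFin k fun r _ =>
    FinDet.allFin k fun d' _ => FinDet.allFin k fun r' _ => ?_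
  have h1 : Finite (Dat F n d r) := finite_dat F n d r
  have h2 : Finite (Dat F n d' r') := finite_dat F n d' r'
  have h3 : Finite (F.T (Fin n)) := F.fin _
  refine FinDet.all fun D => FinDet.all fun D' => ?_
  by_cases hk : n + d + d + d ≤ k
  swap
  · exact ⟨∅, fun x x' _ h => absurd h hk⟩
  by_cases hk' : n + d' + d' + d' ≤ k
  swap
  · exact ⟨∅, fun x x' _ _ h => absurd h hk'⟩
  refine (FinDet.all fun α : F.T (Fin n) => finDet_iso F D D' hk hk' α).mono ?_
  intro x x' h _ _ z z' hz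
  exact h (F.tp z') z z' hz rfl

/-- A family of relations on the sets `M x` which are given by types. -/
def Fam.Inv {σ : ℕ → Type} (I : ∀ x, Str σ (M x)) : Prop :=
  ∀ (m : ℕ) (R : σ m) (x x' : X) (t : Fin m → M x) (t' : Fin m → M x'), F.tp t = F.tp t' →
    (I x m R t ↔ I x' m R t')

/-- Equality is given by types. -/
def Fam.EqInv : Prop :=
  ∀ (m : ℕ) (x x' : X) (t : Fin m → M x) (t' : Fin m → M x'), F.tp t = F.tp t' →
    ∀ i j, t i = t j ↔ t' i = t' j

/-- The truth of formulas with `k` variables for tuples of the same type is the same for parameter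
values which are not distinguished. -/
theorem holds_iff {σ : ℕ → Type} {k : ℕ} (I : ∀ x, Str σ (M x)) (hI : F.Inv I) (hE : F.EqInv)
    (E : X → X → Prop) (hrefl : ∀ x, E x x) (hsymm : ∀ x x', E x x' → E x' x)
    (hEq : ∀ x x', E x x' → F.Eqv k x x') {n : ℕ} (φ : Fml σ k n) :
    n ≤ k → ∀ x x', E x x' → ∀ (z : Fin n → M x) (z' : Fin n → M x'), F.tp z = F.tp z' →
      (φ.Holds (I x) z ↔ φ.Holds (I x') z') := by
  induction φ with
  | rel m R v =>
    intro _ x x' _ z z' hz
    exact hI m R x x' _ _ (F.tp_congr v hz)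
  | eq i j =>
    intro _ x x' _ z z' hz
    exact hE _ x x' z z' hz i j
  | neg φ ih =>
    intro hn x x' he z z' hz
    exact not_congr (ih hn x x' he z z' hz)
  | conj J φ ih =>
    intro hn x x' he z z' hz
    exact forall_congr' fun j => ih j hn x x' he z z' hz
  | ex h φ ih =>
    intro hn x x' he z z' hz
    have key : ∀ x x', E x x' → ∀ (z : Fin _ → M x) (z' : Fin _ → M x'), F.tp z = F.tp z' →
        (Fml.ex h φ).Holds (I x) z → (Fml.ex h φ).Holds (I x') z' := by
      rintro x x' he z z' hz ⟨b, hb⟩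
      obtain ⟨t', ht'⟩ := (hEq x x' he).1.extend h hz (fun _ : Fin 1 => b)
      refine ⟨t' 0, ?_⟩
      have e : t' = fun _ : Fin 1 => t' 0 := by funext y; rw [Subsingleton.elim y 0]
      rw [← e]
      exact (ih h x x' he _ _ ht').1 hb
    exact ⟨key x x' he z z' hz, key x' x (hsymm _ _ he) z' z hz.symm⟩
  | sub m h v φ ih =>
    intro hn x x' he z z' hz
    exact ih h x x' he _ _ (F.tp_congr v hz)
  | @iso n d r h hr δ ε η d' r' h' hr' δ' ε' η' ih1 ih2 ih3 ih1' ih2' ih3' =>
    intro hn x x' he z z' hz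
    -- a formula in more variables is a set of types, the same one for both parameter values
    have key : ∀ {d : ℕ} (hd : n + d ≤ k) (ψ : Fml σ k (n + d)),
        (n + d ≤ k → ∀ x x', E x x' → ∀ (z : Fin (n + d) → M x) (z' : Fin (n + d) → M x'),
          F.tp z = F.tp z' → (ψ.Holds (I x) z ↔ ψ.Holds (I x') z')) →
        ∃ S : Set (F.T (Fin (n + d))),
          (∀ t : Fin d → M x, ψ.Holds (I x) (Fin.append z t) ↔ F.tp (Fin.append z t) ∈ S) ∧
          (∀ t : Fin d → M x', ψ.Holds (I x') (Fin.append z' t) ↔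
            F.tp (Fin.append z' t) ∈ S) := by
      intro d hd ψ ih
      refine ⟨{τ | ∃ t : Fin d → M x, F.tp (Fin.append z t) = τ ∧ ψ.Holds (I x) (Fin.append z t)},
        fun t => ⟨fun ht => ⟨t, rfl, ht⟩, ?_⟩, fun t => ⟨fun ht => ?_, ?_⟩⟩
      · rintro ⟨s, hs, hh⟩
        exact (ih hd x x (hrefl x) _ _ hs).1 hh
      · obtain ⟨s, hs⟩ := (hEq x x' he).1.symm.extend hd hz.symm t
        exact ⟨s, hs.symm, (ih hd x x' he _ _ hs.symm).2 ht⟩
      · rintro ⟨s, hs, hh⟩
        exact (ih hd x x' he _ _ hs).1 hh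
    -- the same for two blocks
    have key2 : ∀ {d : ℕ} (hd : n + d + d ≤ k) (ψ : Fml σ k (n + d + d)),
        (n + d + d ≤ k → ∀ x x', E x x' → ∀ (z : Fin (n + d + d) → M x)
          (z' : Fin (n + d + d) → M x'),
          F.tp z = F.tp z' → (ψ.Holds (I x) z ↔ ψ.Holds (I x') z')) →
        ∃ S : Set (F.T (Fin (n + d + d))),
          (∀ t s : Fin d → M x, ψ.Holds (I x) (Fin.append (Fin.append z t) s) ↔
            F.tp (Fin.append (Fin.append z t) s) ∈ S) ∧
          (∀ t s : Fin d → M x', ψ.Holds (I x') (Fin.append (Fin.append z' t) s) ↔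
            F.tp (Fin.append (Fin.append z' t) s) ∈ S) := by
      intro d hd ψ ih
      refine ⟨{τ | ∃ t s : Fin d → M x, F.tp (Fin.append (Fin.append z t) s) = τ ∧
          ψ.Holds (I x) (Fin.append (Fin.append z t) s)},
        fun t s => ⟨fun ht => ⟨t, s, rfl, ht⟩, ?_⟩, fun t s => ⟨fun ht => ?_, ?_⟩⟩
      · rintro ⟨t1, s1, hs, hh⟩
        exact (ih hd x x (hrefl x) _ _ hs).1 hh
      · obtain ⟨t1, ht1⟩ := (hEq x x' he).1.symm.extend (by omega) hz.symm t
        obtain ⟨s1, hs1⟩ := (hEq x x' he).1.symm.extend hd ht1 s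
        exact ⟨t1, s1, hs1.symm, (ih hd x x' he _ _ hs1.symm).2 ht⟩
      · rintro ⟨t1, s1, hs, hh⟩
        exact (ih hd x x' he _ _ hs).1 hh
    choose Sδ hδ hδ2 using fun i => key (by omega) (δ i) (ih1 i)
    choose Sε hε hε2 using fun i j => key2 (by omega) (ε i j) (ih2 i j)
    choose Sη hη hη2 using fun i j => key2 (by omega) (η i j) (ih3 i j)
    choose Sδ' hδ' hδ2' using fun i => key (by omega) (δ' i) (ih1' i)
    choose Sε' hε' hε2' using fun i j => key2 (by omega) (ε' i j) (ih2' i j)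
    choose Sη' hη' hη2' using fun i j => key2 (by omega) (η' i j) (ih3' i j)
    have main := (hEq x x' he).2 n (by omega) d (by omega) r hr d' (by omega) r' hr'
      (Sδ, Sε, Sη) (Sδ', Sε', Sη') h h' z z' hz
    simp only [Fml.Holds, hδ, hε, hη, hδ2, hε2, hη2, hδ', hε', hη', hδ2', hε2', hη2']
    exact main

/-- **Uniformity.** The truth of all sentences with `k` variables depends on the zeros of finitely
many ring elements only. -/
theorem finDet_holds [IsNoetherianRing A] {σ : ℕ → Type} (k : ℕ) (I : ∀ x, Str σ (M x))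
    (hI : F.Inv I) (hE : F.EqInv) :
    FinDet ev (fun x x' => ∀ (φ : Fml σ k 0) (z : Fin 0 → M x) (z' : Fin 0 → M x'),
      φ.Holds (I x) z ↔ φ.Holds (I x') z') := by
  obtain ⟨P, hP⟩ := F.finDet_eqv k
  refine ⟨P, fun x x' h φ z z' => ?_⟩
  exact holds_iff F I hI hE (fun x x' => ∀ p ∈ P, ev x p = 0 ↔ ev x' p = 0)
    (fun x p _ => Iff.rfl) (fun x x' h p hp => (h p hp).symm) hP φ (Nat.zero_le _) x x' h z z'
    (F.tp_empty _ _)

end

end Pool.Agent.N585.GI
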