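import Pool.Agent.N585.GI.Unif

/-!
# Vector spaces over a finite field
-/

set_option autoImplicit false

namespace Pool.Agent.N585.GI

open Finset

/-- The vocabulary of vector spaces over `K`: for all coefficients `a : Fin m → K` an `m`-ary
relation symbol for the linear dependence `∑ i, a i • t i = 0`. -/
abbrev Lin (K : Type) : ℕ → Type := fun m => Fin m → K

/-- The vector space `K ^ n` as a structure. -/
def vecStr (K : Type) [Field K] (n : ℕ) : Str (Lin K) (Fin n → K) :=
  fun _ a t => ∑ i, a i • t i = 0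

namespace Vec

variable {K : Type} [Field K]

/-- The linear relations of a tuple of vectors. -/
def tp {n : ℕ} {ι : Type} (t : ι → (Fin n → K)) : Set (ι →₀ K) :=
  {a | Finsupp.linearCombination K t a = 0}

/-- The type of a tuple extended by a linear combination with coefficients `c`. -/
def dep {ι : Type} (c : ι →₀ K) (R : Set (ι →₀ K)) : Set (Option ι →₀ K) :=
  {a | a.some + a none • c ∈ R}

/-- The type of a tuple extended by an independent vector. -/
def ind {ι : Type} (R : Set (ι →₀ K)) : Set (Option ι →₀ K) :=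
  {a | a none = 0 ∧ a.some ∈ R}

theorem lc_option {n : ℕ} {ι : Type} (t : ι → (Fin n → K)) (b : Fin n → K)
    (a : Option ι →₀ K) : Finsupp.linearCombination K (Option.elim' b t) a =
      a none • b + Finsupp.linearCombination K t a.some := by
  classical
  rw [Finsupp.linearCombination_apply, Finsupp.linearCombination_apply, Finsupp.sum_option_index]
  · rfl
  · intro o; simp
  · intro o b c; rw [add_smul]

theorem tp_dep {n : ℕ} {ι : Type} (t : ι → (Fin n → K)) (c : ι →₀ K) :
    tp (Option.elim' (Finsupp.linearCombination K t c) t) = dep c (tp t) := by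
  ext a
  simp only [tp, dep, Set.mem_ofPred_eq, lc_option, map_add, map_smul]
  rw [add_comm]

theorem tp_ind {n : ℕ} {ι : Type} (t : ι → (Fin n → K)) {b : Fin n → K}
    (hb : b ∉ Set.range (Finsupp.linearCombination K t)) :
    tp (Option.elim' b t) = ind (tp t) := by
  ext a
  simp only [tp, ind, Set.mem_ofPred_eq, lc_option]
  constructor
  · intro h
    by_cases h0 : a none = 0
    · exact ⟨h0, by simpa [h0] using h⟩
    · exfalso
      apply hb
      refine ⟨-(a none)⁻¹ • a.some, ?_⟩
      rw [map_smul, eq_neg_of_add_eq_zero_right h, smul_neg, neg_smul, neg_neg, smul_smul,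
        inv_mul_cancel₀ h0, one_smul]
  · rintro ⟨h0, h1⟩
    rw [h0, h1]; simp

/-- The evaluation of polynomials at `|K| ^ n`. -/
noncomputable def ev (K : Type) (n : ℕ) : Polynomial ℚ →+* ℚ :=
  Polynomial.evalRingHom ((Nat.card K : ℚ) ^ n)

theorem card_fiber {n : ℕ} {ι : Type} [Fintype (ι →₀ K)] [DecidableEq (Fin n → K)]
    (t : ι → (Fin n → K)) (b : Fin n → K)
    (hb : b ∈ Set.range (Finsupp.linearCombination K t)) :
    (univ.filter fun c => Finsupp.linearCombination K t c = b).card = (tp t).ncard := by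
  classical
  obtain ⟨c0, rfl⟩ := hb
  rw [Set.ncard_eq_toFinset_card']
  refine Finset.card_bij (fun c _ => c - c0) ?_ ?_ ?_
  · intro c hc
    rw [Set.mem_toFinset]
    show Finsupp.linearCombination K t (c - c0) = 0
    rw [map_sub, (mem_filter.1 hc).2, sub_self]
  · intro c _ c' _ h
    exact sub_left_injective h
  · intro d hd
    refine ⟨d + c0, ?_, by simp⟩
    rw [Set.mem_toFinset] at hd
    have hd : Finsupp.linearCombination K t d = 0 := hd
    rw [mem_filter, map_add, hd, zero_add]
    exact ⟨mem_univ _, rfl⟩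

end Vec

open Vec in
/-- The family of the vector spaces `K ^ n`. -/
noncomputable def vecFam (K : Type) [Field K] [Fintype K] [DecidableEq K] :
    Fam (Vec.ev K) (fun n : ℕ => (Fin n → K)) where
  T ι := Set (ι →₀ K)
  fin ι _ := by
    have : Finite (ι →₀ K) := Finite.of_injective (fun a : ι →₀ K => (a : ι → K))
      DFunLike.coe_injective
    infer_instance
  map f R := {a | a.mapDomain f ∈ R}
  tp t := Vec.tp t
  tp_comp t f := by
    ext a
    simp only [Vec.tp, Set.mem_ofPred_eq, Finsupp.linearCombination_mapDomain]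
  tp_empty t t' := by
    ext a
    have : a = 0 := by ext i; exact isEmptyElim i
    subst this
    simp [Vec.tp]
  sum_one ι _ h := by
    classical
    have i0 := Fintype.ofFinite ι
    have i1 : Finite (ι →₀ K) := Finite.of_injective (fun a : ι →₀ K => (a : ι → K))
      DFunLike.coe_injective
    have i2 := Fintype.ofFinite (ι →₀ K)
    refine ⟨fun R => Polynomial.C ((R.ncard : ℚ)⁻¹) * ∑ c, h (dep c R) +
      (Polynomial.X - Polynomial.C ((Fintype.card (ι →₀ K) : ℚ) * (R.ncard : ℚ)⁻¹)) * h (ind R),
      fun n t => ?_⟩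
    show ∑ b : Fin n → K, Vec.ev K n (h (Vec.tp (Option.elim' b t))) = _
    set L := Finsupp.linearCombination K t with hL
    set m : ℚ := ((Vec.tp t).ncard : ℚ) with hm
    have hm0 : m ≠ 0 := by
      rw [hm, Nat.cast_ne_zero]
      have : (0 : ι →₀ K) ∈ Vec.tp t := by simp [Vec.tp]
      exact (Set.ncard_pos (Set.toFinite _)).2 ⟨0, this⟩ |>.ne'
    let w : (Fin n → K) → ℚ := fun b => (∑ c, if L c = b then 1 else 0) * m⁻¹
    have hw1 : ∀ b ∈ Set.range L, w b = 1 := by
      intro b hb
      show (∑ c, if L c = b then (1 : ℚ) else 0) * m⁻¹ = 1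
      rw [Finset.sum_boole, Vec.card_fiber t b hb]
      exact mul_inv_cancel₀ hm0
    have hw0 : ∀ b ∉ Set.range L, w b = 0 := by
      intro b hb
      show (∑ c, if L c = b then (1 : ℚ) else 0) * m⁻¹ = 0
      rw [Finset.sum_eq_zero, zero_mul]
      intro c _
      rw [if_neg]
      exact fun e => hb ⟨c, e⟩
    have hsum : ∀ G : (Fin n → K) → ℚ, ∑ b, w b * G b = m⁻¹ * ∑ c, G (L c) := by
      intro G
      have : ∀ b, w b * G b = ∑ c, m⁻¹ * (if L c = b then G b else 0) := by
        intro b
        show (∑ c, if L c = b then (1 : ℚ) else 0) * m⁻¹ * G b = _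
        rw [mul_assoc, Finset.sum_mul]
        refine Finset.sum_congr rfl fun c _ => ?_
        split_ifs <;> ring
      rw [Finset.sum_congr rfl fun b _ => this b, Finset.sum_comm, Finset.mul_sum]
      refine Finset.sum_congr rfl fun c _ => ?_
      rw [← Finset.mul_sum]
      congr 1
      simp
    have e1 : ∀ b : Fin n → K, Vec.ev K n (h (Vec.tp (Option.elim' b t))) =
        w b * Vec.ev K n (h (Vec.tp (Option.elim' b t))) +
          (1 - w b) * Vec.ev K n (h (ind (Vec.tp t))) := by
      intro b
      by_cases hb : b ∈ Set.range L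
      · rw [hw1 b hb]; ring
      · rw [hw0 b hb, Vec.tp_ind t hb]; ring
    rw [Finset.sum_congr rfl fun b _ => e1 b, Finset.sum_add_distrib, hsum, ← Finset.sum_mul]
    have e2 : ∑ b, (1 - w b) = (Nat.card K : ℚ) ^ n - m⁻¹ * (Fintype.card (ι →₀ K) : ℚ) := by
      rw [Finset.sum_sub_distrib]
      have := hsum (fun _ => 1)
      simp only [mul_one] at this
      rw [this]
      simp
    rw [e2]
    have e3 : ∀ c, Vec.ev K n (h (Vec.tp (Option.elim' (L c) t))) =
        Vec.ev K n (h (dep c (Vec.tp t))) := by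
      intro c
      rw [hL, Vec.tp_dep]
    rw [Finset.sum_congr rfl fun c _ => e3 c, map_add, map_mul, map_mul, map_sub, map_sum]
    simp only [Vec.ev, Polynomial.coe_evalRingHom, Polynomial.eval_C, Polynomial.eval_X]
    ring

theorem vecFam_eqInv (K : Type) [Field K] [Fintype K] [DecidableEq K] :
    (vecFam K).EqInv := by
  classical
  intro m n n' t t' h i j
  have key : ∀ {n : ℕ} (t : Fin m → (Fin n → K)), t i = t j ↔
      (Finsupp.single i 1 - Finsupp.single j 1 : Fin m →₀ K) ∈ Vec.tp t := by
    intro n t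
    simp [Vec.tp, sub_eq_zero]
  rw [key, key]
  have h1 : Vec.tp t = Vec.tp t' := h
  rw [h1]

theorem vecFam_inv (K : Type) [Field K] [Fintype K] [DecidableEq K] :
    (vecFam K).Inv (fun n => vecStr K n) := by
  classical
  intro m R n n' t t' h
  have key : ∀ {n : ℕ} (t : Fin m → (Fin n → K)), (∑ i, R i • t i = 0) ↔
      (Finsupp.equivFunOnFinite.symm R : Fin m →₀ K) ∈ Vec.tp t := by
    intro n t
    show _ ↔ Finsupp.linearCombination K t (Finsupp.equivFunOnFinite.symm R) = 0
    rw [Finsupp.linearCombination_apply, Finsupp.sum_fintype _ _ (by simp)]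
    rfl
  have h1 : Vec.tp t = Vec.tp t' := h
  show (∑ i, R i • t i = 0) ↔ (∑ i, R i • t' i = 0)
  rw [key, key, h1]

/-- A set of natural numbers whose members are determined by the zeros of finitely many univariate
polynomials at pairwise different points is finite or cofinite. -/
theorem finite_or_cofinite {ev : ℕ → Polynomial ℚ →+* ℚ} {u : ℕ → ℚ} (hu : Function.Injective u)
    (hev : ∀ n p, ev n p = p.eval (u n)) {X : Set ℕ}
    (h : ∃ P : Finset (Polynomial ℚ), ∀ n n', (∀ p ∈ P, ev n p = 0 ↔ ev n' p = 0) →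
      (n ∈ X ↔ n' ∈ X)) : X.Finite ∨ Xᶜ.Finite := by
  classical
  obtain ⟨P, hP⟩ := h
  let B : Set ℕ := ⋃ p ∈ P.filter (fun p => p ≠ 0), {n | p.eval (u n) = 0}
  have hB : B.Finite := by
    refine Set.Finite.biUnion (Finset.finite_toSet _) fun p hp => ?_
    have hp0 : p ≠ 0 := (mem_filter.1 hp).2
    have : {n | p.eval (u n) = 0} = u ⁻¹' (p.rootSet ℚ) := by
      ext n
      simp [Polynomial.mem_rootSet, hp0, Polynomial.coe_aeval_eq_eval]
    rw [this]
    exact Set.Finite.preimage hu.injOn (Polynomial.rootSet_finite p ℚ)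
  have hpat : ∀ n ∉ B, ∀ n' ∉ B, (n ∈ X ↔ n' ∈ X) := by
    intro n hn n' hn'
    refine hP n n' fun p hp => ?_
    rw [hev, hev]
    by_cases hp0 : p = 0
    · simp [hp0]
    · have h1 : ∀ n ∉ B, p.eval (u n) ≠ 0 := by
        intro n hn h0
        apply hn
        exact Set.mem_biUnion (mem_filter.2 ⟨hp, hp0⟩) h0
      exact iff_of_false (h1 n hn) (h1 n' hn')
  by_cases hX : ∃ n ∉ B, n ∈ X
  · right
    obtain ⟨n, hn, hnX⟩ := hX
    refine hB.subset fun n' hn' => ?_
    by_contra hc
    exact hn' ((hpat n hn n' hc).1 hnX)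
  · left
    push Not at hX
    refine hB.subset fun n hn => ?_
    by_contra hc
    exact hX n hc hn

/-- **Isomorphism quantifiers on vector spaces.** -/
theorem vec_main (K : Type) [Field K] [Fintype K] {k : ℕ} (φ : Fml (Lin K) k 0) :
    {n : ℕ | φ.Holds (vecStr K n) Fin.elim0}.Finite ∨
      {n : ℕ | φ.Holds (vecStr K n) Fin.elim0}ᶜ.Finite := by
  classical
  have hc : 1 < Nat.card K := by
    rw [Nat.card_eq_fintype_card]
    exact Fintype.one_lt_card
  refine finite_or_cofinite (ev := Vec.ev K) (u := fun n => (Nat.card K : ℚ) ^ n) ?_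
    (fun n p => rfl) ?_
  · exact pow_right_injective₀ (by positivity) (by exact_mod_cast hc.ne')
  · obtain ⟨P, hP⟩ := finDet_holds (vecFam K) k (fun n => vecStr K n) (vecFam_inv K)
      (vecFam_eqInv K)
    exact ⟨P, fun n n' h => hP n n' h φ _ _⟩

end Pool.Agent.N585.GI
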